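import Mathlib
import Pool.Agent.helper99.LC.Defs

/-!
# Gromov boundary: abstract part for MP_c915fc_gt
-/

set_option autoImplicit false

namespace Pool.Agent.helper82.LCB

open Filter Topology Pool.Agent.helper99.LC

/-- limit points of a set of points -/
def Lim {X : Type*} [MetricSpace X] (A : Set X) : Set (Bdry X) :=
  {ξ | ∃ x : GSeq X, (∀ n, x.1 n ∈ A) ∧ Bdry.mk x = ξ}

variable {X : Type*} [MetricSpace X]

/-! ### Elementary facts on the Gromov product -/

lemma gp_comm (o x y : X) : gp o x y = gp o y x := by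
  unfold gp; rw [dist_comm x y]; ring

lemma gp_self (o x : X) : gp o x x = dist o x := by
  unfold gp; rw [dist_self]; ring

lemma gp_le_left (o x y : X) : gp o x y ≤ dist o x := by
  unfold gp
  have := dist_triangle o x y
  linarith

lemma gp_le_right (o x y : X) : gp o x y ≤ dist o y := by
  rw [gp_comm]; exact gp_le_left o y x

lemma gp_base (o o' x y : X) : gp o x y - dist o o' ≤ gp o' x y := by
  unfold gp
  have h1 := dist_triangle o o' x
  have h2 := dist_triangle o o' y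
  linarith

lemma gp_lip (o x x' y : X) : gp o x y - dist x x' ≤ gp o x' y := by
  unfold gp
  have h1 := dist_triangle o x' x
  have h2 := dist_triangle x' x y
  rw [dist_comm x' x] at h1 h2
  linarith

lemma gp_near (o x y : X) : dist o x - dist x y ≤ gp o x y := by
  unfold gp
  have h1 := dist_triangle o y x
  rw [dist_comm y x] at h1
  linarith

lemma tendsto2_iff (f : ℕ → ℕ → ℝ) :
    Tendsto (fun p : ℕ × ℕ => f p.1 p.2) atTop atTop ↔
      ∀ R : ℝ, ∃ N : ℕ, ∀ i j, N ≤ i → N ≤ j → R ≤ f i j := by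
  rw [tendsto_atTop]
  constructor
  · intro h R
    obtain ⟨⟨a, b⟩, hab⟩ := eventually_atTop.mp (h R)
    refine ⟨max a b, fun i j hi hj => ?_⟩
    exact hab (i, j) ⟨(le_max_left a b).trans hi, (le_max_right a b).trans hj⟩
  · intro h R
    obtain ⟨N, hN⟩ := h R
    exact eventually_atTop.mpr ⟨(N, N), fun p hp => hN p.1 p.2 hp.1 hp.2⟩

lemma tendsto1_iff (f : ℕ → ℝ) :
    Tendsto f atTop atTop ↔ ∀ R : ℝ, ∃ N : ℕ, ∀ i, N ≤ i → R ≤ f i := by
  rw [tendsto_atTop]
  simp only [eventually_atTop]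

lemma ev2_iff (P : ℕ → ℕ → Prop) :
    (∀ᶠ p : ℕ × ℕ in atTop, P p.1 p.2) ↔ ∃ N : ℕ, ∀ i j, N ≤ i → N ≤ j → P i j := by
  constructor
  · intro h
    obtain ⟨⟨a, b⟩, hab⟩ := eventually_atTop.mp h
    refine ⟨max a b, fun i j hi hj => ?_⟩
    exact hab (i, j) ⟨(le_max_left a b).trans hi, (le_max_right a b).trans hj⟩
  · rintro ⟨N, hN⟩
    exact eventually_atTop.mpr ⟨(N, N), fun p hp => hN p.1 p.2 hp.1 hp.2⟩

theorem gseq_of (o : X) (x : ℕ → X)
    (h : Tendsto (fun p : ℕ × ℕ => gp o (x p.1) (x p.2)) atTop atTop) (o' : X) :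
    Tendsto (fun p : ℕ × ℕ => gp o' (x p.1) (x p.2)) atTop atTop := by
  have h1 : Tendsto (fun p : ℕ × ℕ => gp o (x p.1) (x p.2) - dist o o') atTop atTop :=
    tendsto_atTop_add_const_right _ _ h
  exact tendsto_atTop_mono (fun p => gp_base o o' _ _) h1

/-- make a Gromov sequence from one base point -/
def mkSeq (o : X) (x : ℕ → X)
    (h : ∀ R : ℝ, ∃ N : ℕ, ∀ i j, N ≤ i → N ≤ j → R ≤ gp o (x i) (x j)) : GSeq X :=
  ⟨x, gseq_of o x ((tendsto2_iff (fun i j => gp o (x i) (x j))).mpr h)⟩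

lemma rel_of (o : X) (x y : GSeq X)
    (h : Tendsto (fun n => gp o (x.1 n) (y.1 n)) atTop atTop) : GRel x y := by
  intro o'
  have h1 : Tendsto (fun n : ℕ => gp o (x.1 n) (y.1 n) - dist o o') atTop atTop :=
    tendsto_atTop_add_const_right _ _ h
  exact tendsto_atTop_mono (fun p => gp_base o o' _ _) h1

theorem mk_eq_of (o : X) (x y : GSeq X)
    (h : Tendsto (fun n => gp o (x.1 n) (y.1 n)) atTop atTop) : Bdry.mk x = Bdry.mk y :=
  Quot.sound (rel_of o x y h)

lemma gseq_spec (o : X) (x : GSeq X) (R : ℝ) :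
    ∃ N : ℕ, ∀ i j, N ≤ i → N ≤ j → R ≤ gp o (x.1 i) (x.1 j) :=
  (tendsto2_iff (fun i j => gp o (x.1 i) (x.1 j))).mp (x.2 o) R

lemma gseq_dist (o : X) (x : GSeq X) (R : ℝ) : ∃ N : ℕ, ∀ i, N ≤ i → R ≤ dist o (x.1 i) := by
  obtain ⟨N, hN⟩ := gseq_spec o x R
  exact ⟨N, fun i hi => by have := hN i i hi hi; rwa [gp_self] at this⟩

lemma rel_refl (x : GSeq X) : GRel x x := by
  intro o
  rw [tendsto1_iff]
  intro R
  obtain ⟨N, hN⟩ := gseq_spec o x R
  exact ⟨N, fun i hi => hN i i hi hi⟩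

lemma rel_symm {x y : GSeq X} (h : GRel x y) : GRel y x := by
  intro o
  have := h o
  simpa only [gp_comm] using this

lemma rel_trans (hH : Hyperbolic X) {x y z : GSeq X} (h1 : GRel x y) (h2 : GRel y z) :
    GRel x z := by
  obtain ⟨δ, hδ⟩ := hH
  intro o
  rw [tendsto1_iff]
  intro R
  obtain ⟨N1, hN1⟩ := (tendsto1_iff _).mp (h1 o) (R + δ)
  obtain ⟨N2, hN2⟩ := (tendsto1_iff _).mp (h2 o) (R + δ)
  refine ⟨max N1 N2, fun i hi => ?_⟩
  have a1 := hN1 i ((le_max_left _ _).trans hi)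
  have a2 := hN2 i ((le_max_right _ _).trans hi)
  have a3 := hδ o (x.1 i) (y.1 i) (z.1 i)
  have a4 : R + δ ≤ min (gp o (x.1 i) (y.1 i)) (gp o (y.1 i) (z.1 i)) := le_min a1 a2
  linarith

theorem mk_eq_iff (hH : Hyperbolic X) {x y : GSeq X} : Bdry.mk x = Bdry.mk y ↔ GRel x y := by
  constructor
  · intro h
    have h1 : Relation.EqvGen GRel x y := Quot.eqvGen_exact h
    clear h
    induction h1 with
    | rel _ _ h => exact h
    | refl x => exact rel_refl x
    | symm _ _ _ ih => exact rel_symm ih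
    | trans _ _ _ _ _ iha ihb => exact rel_trans hH iha ihb
  · exact fun h => Quot.sound h

/-- subsequences represent the same point -/
lemma mk_sub (o : X) (x y : GSeq X) (φ : ℕ → ℕ) (hφ : Tendsto φ atTop atTop)
    (h : ∀ n, y.1 n = x.1 (φ n)) : Bdry.mk y = Bdry.mk x := by
  apply mk_eq_of o
  rw [tendsto1_iff]
  intro R
  obtain ⟨N, hN⟩ := gseq_spec o x R
  obtain ⟨M, hM⟩ := eventually_atTop.mp (tendsto_atTop.mp hφ N)
  refine ⟨max N M, fun i hi => ?_⟩
  rw [h i]
  exact hN _ _ (hM i ((le_max_right _ _).trans hi)) ((le_max_left _ _).trans hi)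

/-- subsequence of a Gromov sequence -/
def sub (x : GSeq X) (φ : ℕ → ℕ) (hφ : Tendsto φ atTop atTop) : GSeq X :=
  ⟨fun n => x.1 (φ n), fun o => by
    rw [tendsto2_iff (fun i j => gp o (x.1 (φ i)) (x.1 (φ j)))]
    intro R
    obtain ⟨N, hN⟩ := gseq_spec o x R
    obtain ⟨M, hM⟩ := eventually_atTop.mp (tendsto_atTop.mp hφ N)
    exact ⟨M, fun i j hi hj => hN _ _ (hM i hi) (hM j hj)⟩⟩

theorem limitSet_eq {G : Type*} [Group G] [MulAction G X]
    (hact : ∀ (g : G) (x y : X), dist (g • x) (g • y) = dist x y) (x o : X) :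
    limitSet G x = Lim (MulAction.orbit G o) := by
  have key : ∀ (a b : X) (g : ℕ → G) (h : ∀ o : X,
      Tendsto (fun p : ℕ × ℕ => gp o (g p.1 • a) (g p.2 • a)) atTop atTop),
      ∃ h' : ∀ o : X, Tendsto (fun p : ℕ × ℕ => gp o (g p.1 • b) (g p.2 • b)) atTop atTop,
        Bdry.mk ⟨fun n => g n • b, h'⟩ = Bdry.mk ⟨fun n => g n • a, h⟩ := by
    intro a b g h
    have h' : ∀ o : X, Tendsto (fun p : ℕ × ℕ => gp o (g p.1 • b) (g p.2 • b)) atTop atTop := by
      intro q
      refine tendsto_atTop_mono (fun p => ?_)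
        (tendsto_atTop_add_const_right _ (-(2 * dist a b)) (h q))
      have h1 := gp_lip q (g p.1 • a) (g p.1 • b) (g p.2 • a)
      have h2 := gp_lip q (g p.2 • a) (g p.2 • b) (g p.1 • b)
      rw [hact] at h1 h2
      rw [gp_comm q (g p.2 • a), gp_comm q (g p.2 • b)] at h2
      linarith
    refine ⟨h', ?_⟩
    refine mk_eq_of a _ _ ?_
    rw [tendsto1_iff]
    intro R
    obtain ⟨N, hN⟩ := gseq_dist a (⟨fun n => g n • b, h'⟩ : GSeq X) (R + dist b a)
    refine ⟨N, fun i hi => ?_⟩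
    have h1 := hN i hi
    have h2 := gp_near a (g i • b) (g i • a)
    rw [hact] at h2
    change R + dist b a ≤ dist a (g i • b) at h1
    change R ≤ gp a (g i • b) (g i • a)
    linarith
  ext ξ
  constructor
  · rintro ⟨g, h, rfl⟩
    obtain ⟨h', e⟩ := key x o g h
    exact ⟨⟨fun n => g n • o, h'⟩, fun n => ⟨g n, rfl⟩, e⟩
  · rintro ⟨y, hy, rfl⟩
    choose g hg using hy
    have hy2 : y = ⟨fun n => g n • o, by
        have h1 : (fun n => g n • o) = y.1 := funext hg
        intro q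
        have := y.2 q
        rw [← h1] at this
        exact this⟩ := by
      apply Subtype.ext
      exact (funext hg).symm
    rw [hy2]
    obtain ⟨h', e⟩ := key o x g _
    exact ⟨g, h', e⟩

theorem exists_gseq [ProperSpace X] (hG : Geodesic X) (o : X) (x : ℕ → X)
    (hx : Tendsto (fun n => dist o (x n)) atTop atTop) :
    ∃ φ : ℕ → ℕ, StrictMono φ ∧ ∃ y : GSeq X, ∀ n, y.1 n = x (φ n) := by
  choose γ h0 h1 hγ using fun n => hG o (x n)
  -- point at distance `min R (dist o (x n))`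
  let p : ℕ → ℕ → X := fun n R => γ n (min (R : ℝ) (dist o (x n)))
  have hp : ∀ n, p n ∈ Set.univ.pi fun R : ℕ => Metric.closedBall o (R : ℝ) := by
    intro n R _
    have hd : 0 ≤ dist o (x n) := dist_nonneg
    have h2 := hγ n (min (R : ℝ) (dist o (x n)))
      ⟨le_min (Nat.cast_nonneg R) hd, min_le_right _ _⟩ 0 ⟨le_refl _, hd⟩
    rw [h0 n, sub_zero, abs_of_nonneg (le_min (Nat.cast_nonneg R) hd)] at h2
    change dist (γ n (min (R : ℝ) (dist o (x n)))) o ≤ R
    rw [h2]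
    exact min_le_left _ _
  have hc : IsCompact (Set.univ.pi fun R : ℕ => Metric.closedBall o (R : ℝ)) :=
    isCompact_univ_pi fun R => isCompact_closedBall o _
  obtain ⟨q, -, φ, hφ, hlim⟩ := hc.tendsto_subseq hp
  refine ⟨φ, hφ, mkSeq o (fun n => x (φ n)) ?_, fun n => rfl⟩
  intro R
  obtain ⟨K, hK⟩ := exists_nat_ge (R + 1)
  have hl : Tendsto (fun n => p (φ n) K) atTop (𝓝 (q K)) := (tendsto_pi_nhds.mp hlim) K
  obtain ⟨N1, hN1⟩ := Metric.tendsto_atTop.mp hl 1 one_pos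
  obtain ⟨N2, hN2⟩ := (tendsto1_iff _).mp (hx.comp hφ.tendsto_atTop) K
  refine ⟨max N1 N2, fun i j hi hj => ?_⟩
  have a1 := hN1 i ((le_max_left _ _).trans hi)
  have a2 := hN1 j ((le_max_left _ _).trans hj)
  have b1 : (K : ℝ) ≤ dist o (x (φ i)) := hN2 i ((le_max_right _ _).trans hi)
  have b2 : (K : ℝ) ≤ dist o (x (φ j)) := hN2 j ((le_max_right _ _).trans hj)
  have hpp : dist (p (φ i) K) (p (φ j) K) ≤ 2 := by
    have := dist_triangle_right (p (φ i) K) (p (φ j) K) (q K)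
    linarith
  have tail : ∀ n, (K : ℝ) ≤ dist o (x n) → dist (p n K) (x n) = dist o (x n) - K := by
    intro n hn
    have hd : 0 ≤ dist o (x n) := dist_nonneg
    have h2 := hγ n (min (K : ℝ) (dist o (x n)))
      ⟨le_min (Nat.cast_nonneg K) hd, min_le_right _ _⟩ (dist o (x n)) ⟨hd, le_refl _⟩
    rw [h1 n, min_eq_left hn, abs_of_nonpos (by linarith)] at h2
    change dist (γ n (min (K : ℝ) (dist o (x n)))) (x n) = _
    rw [min_eq_left hn, h2]
    ring
  have t1 := tail _ b1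
  have t2 := tail _ b2
  have t3 : dist (x (φ i)) (x (φ j)) ≤
      dist (p (φ i) K) (x (φ i)) + dist (p (φ i) K) (p (φ j) K) + dist (p (φ j) K) (x (φ j)) := by
    have u1 := dist_triangle (x (φ i)) (p (φ i) K) (x (φ j))
    have u2 := dist_triangle (p (φ i) K) (p (φ j) K) (x (φ j))
    rw [dist_comm (x (φ i)) (p (φ i) K)] at u1
    linarith
  unfold gp
  linarith

end Pool.Agent.helper82.LCB
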