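import Mathlib
import Pool.Agent.helper82.LC.Bd

/-!
# Gromov boundary: connectedness of limit sets and failure of local connectedness
-/

set_option autoImplicit false

namespace Pool.Agent.helper82.LCB

open Filter Topology Pool.Agent.helper99.LC

variable {X : Type*} [MetricSpace X]

/-- two step estimate -/
lemma two_step {δ : ℝ} (hδ : ∀ o x y z : X, min (gp o x y) (gp o y z) - δ ≤ gp o x z)
    {o x y z : X} {R : ℝ} (h1 : R + δ ≤ gp o x y) (h2 : R + δ ≤ gp o y z) : R ≤ gp o x z := by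
  have a3 := hδ o x y z
  have a4 : R + δ ≤ min (gp o x y) (gp o y z) := le_min h1 h2
  linarith

lemma near_of (o : X) (x y : GSeq X) (R : ℝ)
    (h : ∃ N : ℕ, ∀ i j, N ≤ i → N ≤ j → R ≤ gp o (x.1 i) (y.1 j)) :
    Near o R (Bdry.mk x) (Bdry.mk y) :=
  ⟨x, y, rfl, rfl, (ev2_iff (fun i j => R ≤ gp o (x.1 i) (y.1 j))).mpr h⟩

/-- nearness can be read off from arbitrary representatives -/
lemma near_spec {δ : ℝ} (hδ : ∀ o x y z : X, min (gp o x y) (gp o y z) - δ ≤ gp o x z)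
    {o : X} {x y : GSeq X} {R : ℝ} (h : Near o (R + 2 * δ) (Bdry.mk x) (Bdry.mk y)) :
    ∃ N : ℕ, ∀ i j, N ≤ i → N ≤ j → R ≤ gp o (x.1 i) (y.1 j) := by
  have hH : Hyperbolic X := ⟨δ, hδ⟩
  obtain ⟨x', y', hx, hy, hxy⟩ := h
  obtain ⟨N, hN⟩ := (ev2_iff (fun i j => R + 2 * δ ≤ gp o (x'.1 i) (y'.1 j))).mp hxy
  obtain ⟨N1, hN1⟩ := (tendsto1_iff _).mp ((mk_eq_iff hH).mp hx o) (R + δ)
  obtain ⟨N2, hN2⟩ := (tendsto1_iff _).mp ((mk_eq_iff hH).mp hy o) (R + 2 * δ)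
  refine ⟨max N (max N1 N2), fun i j hi hj => ?_⟩
  have a1 := hN i j ((le_max_left _ _).trans hi) ((le_max_left _ _).trans hj)
  have a2 := hN1 i (((le_max_left _ _).trans (le_max_right _ _)).trans hi)
  have a3 := hN2 j (((le_max_right _ _).trans (le_max_right _ _)).trans hj)
  rw [gp_comm] at a2
  have a4 : R + δ ≤ gp o (x'.1 i) (y.1 j) :=
    two_step hδ (y := y'.1 j) (by linarith) (by linarith)
  exact two_step hδ a2 a4

theorem mem_closure_of (hH : Hyperbolic X) (o : X) (T : Set (Bdry X)) (x : GSeq X) (r : ℕ → ℝ)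
    (hr : Tendsto r atTop atTop)
    (h : ∀ n, ∃ y : GSeq X, Bdry.mk y ∈ T ∧ ∀ m, r n ≤ gp o (x.1 n) (y.1 m)) :
    Bdry.mk x ∈ closure T := by
  obtain ⟨δ, hδ⟩ := hH
  rw [mem_closure_iff]
  intro U hU hxU
  obtain ⟨R, hR⟩ := hU o _ hxU
  obtain ⟨N1, hN1⟩ := gseq_spec o x (R + δ)
  obtain ⟨N2, hN2⟩ := (tendsto1_iff _).mp hr (R + δ)
  obtain ⟨y, hyT, hy⟩ := h (max N1 N2)
  refine ⟨Bdry.mk y, hR _ (near_of o x y R ⟨N1, fun i j hi _ => ?_⟩), hyT⟩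
  exact two_step hδ (hN1 i _ hi (le_max_left _ _)) ((hN2 _ (le_max_right _ _)).trans (hy j))

/-- every far point of `A` is close to a limit point -/
lemma close_of_far [ProperSpace X] (hG : Geodesic X) (o : X) (A : Set X) (n : ℝ) :
    ∃ m : ℝ, ∀ a ∈ A, m ≤ dist o a →
      ∃ z : GSeq X, (∀ i, z.1 i ∈ A) ∧ ∃ N : ℕ, ∀ i, N ≤ i → n ≤ gp o a (z.1 i) := by
  by_contra hc
  push Not at hc
  choose a haA had hz using fun m : ℕ => hc m
  obtain ⟨φ, hφ, y, hy⟩ := exists_gseq hG o a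
    (tendsto_atTop_mono had tendsto_natCast_atTop_atTop)
  obtain ⟨N, hN⟩ := gseq_spec o y n
  obtain ⟨i, hi, hlt⟩ := hz (φ N) y (fun i => by rw [hy]; exact haA _) N
  have h1 := hN N i le_rfl hi
  rw [hy N] at h1
  linarith

theorem Lim_preconnected [ProperSpace X] (hG : Geodesic X) (hH : Hyperbolic X) (o : X) (A : Set X)
    (hA : ∀ r : ℝ, ∃ ρ : ℝ, ∀ a ∈ A, ∀ a' ∈ A, ρ ≤ dist o a → ρ ≤ dist o a' →
      Relation.ReflTransGen (fun x y => y ∈ A ∧ r ≤ gp o x y) a a') :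
    IsPreconnected (Lim A) := by
  obtain ⟨δ, hδ⟩ := hH
  intro U V hU hV hUV hLU hLV
  by_contra hcon
  rw [Set.not_nonempty_iff_eq_empty] at hcon
  have hdisj : ∀ z : GSeq X, (∀ i, z.1 i ∈ A) → Bdry.mk z ∈ U → Bdry.mk z ∈ V → False := by
    intro z hz h1 h2
    have : Bdry.mk z ∈ (Lim A ∩ (U ∩ V)) := ⟨⟨z, hz, rfl⟩, h1, h2⟩
    rw [hcon] at this
    exact this
  -- closeness
  let Cl : ℝ → Set (Bdry X) → X → Prop := fun n T a =>
    ∃ z : GSeq X, (∀ i, z.1 i ∈ A) ∧ Bdry.mk z ∈ T ∧ ∃ N : ℕ, ∀ i, N ≤ i → n ≤ gp o a (z.1 i)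
  have L2 : ∃ n : ℕ, ∀ a ∈ A, ∀ b ∈ A, Cl n U a → Cl n V b → ¬ (n : ℝ) ≤ gp o a b := by
    by_contra hc
    push Not at hc
    choose a haA b hbA hU' hV' hab using hc
    obtain ⟨φ, hφ, y, hy⟩ := exists_gseq hG o a (tendsto_atTop_mono
      (fun n => (hab n).trans (gp_le_left o _ _)) tendsto_natCast_atTop_atTop)
    have hyA : ∀ i, y.1 i ∈ A := fun i => by rw [hy]; exact haA _
    have hyL : Bdry.mk y ∈ Lim A := ⟨y, hyA, rfl⟩
    rcases hUV hyL with hyU | hyV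
    · obtain ⟨R, hR⟩ := hU o _ hyU
      obtain ⟨K, hK⟩ := exists_nat_ge (max (R + 2 * δ) (R + δ))
      obtain ⟨N1, hN1⟩ := gseq_spec o y (R + δ)
      obtain ⟨z, hzA, hzV, N2, hN2⟩ := hV' (φ (max N1 K))
      have hKn : (K : ℝ) ≤ (φ (max N1 K) : ℝ) := by
        exact_mod_cast (le_max_right N1 K).trans (hφ.id_le _)
      have e1 := (le_max_left (R + 2 * δ) (R + δ)).trans hK
      have e2 := (le_max_right (R + 2 * δ) (R + δ)).trans hK
      refine hdisj z hzA (hR _ (near_of o y z R ⟨max N1 N2, fun i j hi hj => ?_⟩)) hzV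
      have c1 := hN1 i (max N1 K) ((le_max_left _ _).trans hi) (le_max_left _ _)
      rw [hy (max N1 K)] at c1
      have c2 := hab (φ (max N1 K))
      have c3 := hN2 j ((le_max_right _ _).trans hj)
      exact two_step hδ c1 (two_step hδ (y := b (φ (max N1 K))) (by linarith) (by linarith))
    · obtain ⟨R, hR⟩ := hV o _ hyV
      obtain ⟨K, hK⟩ := exists_nat_ge (R + δ)
      obtain ⟨N1, hN1⟩ := gseq_spec o y (R + δ)
      obtain ⟨z, hzA, hzU, N2, hN2⟩ := hU' (φ (max N1 K))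
      have hKn : (K : ℝ) ≤ (φ (max N1 K) : ℝ) := by
        exact_mod_cast (le_max_right N1 K).trans (hφ.id_le _)
      refine hdisj z hzA hzU (hR _ (near_of o y z R ⟨max N1 N2, fun i j hi hj => ?_⟩))
      have c1 := hN1 i (max N1 K) ((le_max_left _ _).trans hi) (le_max_left _ _)
      rw [hy (max N1 K)] at c1
      have c3 := hN2 j ((le_max_right _ _).trans hj)
      exact two_step hδ c1 (by linarith)
  obtain ⟨n, hn⟩ := L2
  obtain ⟨m, hm⟩ := close_of_far hG o A n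
  obtain ⟨ρ, hρ⟩ := hA (max (n : ℝ) m)
  obtain ⟨_, ⟨x, hxA, rfl⟩, hxU⟩ := hLU
  obtain ⟨_, ⟨y, hyA, rfl⟩, hyV⟩ := hLV
  obtain ⟨N1, hN1⟩ := gseq_spec o x n
  obtain ⟨N2, hN2⟩ := gseq_dist o x ρ
  obtain ⟨N3, hN3⟩ := gseq_spec o y n
  obtain ⟨N4, hN4⟩ := gseq_dist o y ρ
  have hchain := hρ _ (hxA (max N1 N2)) _ (hyA (max N3 N4)) (hN2 _ (le_max_right _ _))
    (hN4 _ (le_max_right _ _))
  have hCx : Cl n U (x.1 (max N1 N2)) :=
    ⟨x, hxA, hxU, N1, fun i hi => hN1 _ i (le_max_left _ _) hi⟩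
  have hCy : Cl n V (y.1 (max N3 N4)) :=
    ⟨y, hyA, hyV, N3, fun i hi => hN3 _ i (le_max_left _ _) hi⟩
  have key : Cl n U (y.1 (max N3 N4)) ∧ y.1 (max N3 N4) ∈ A := by
    refine Relation.ReflTransGen.head_induction_on (motive := fun c _ =>
      Cl n U c ∧ c ∈ A → Cl n U (y.1 (max N3 N4)) ∧ y.1 (max N3 N4) ∈ A) hchain
      (fun h => h) ?_ ⟨hCx, hxA _⟩
    rintro c d ⟨hdA, hcd⟩ - ih ⟨hc, hcA⟩
    refine ih ⟨?_, hdA⟩
    have hd : m ≤ dist o d :=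
      ((le_max_right _ _).trans hcd).trans (gp_le_right o c d)
    obtain ⟨z, hzA, N, hN⟩ := hm d hdA hd
    rcases hUV (⟨z, hzA, rfl⟩ : Bdry.mk z ∈ Lim A) with h | h
    · exact ⟨z, hzA, h, N, hN⟩
    · exact absurd ((le_max_left _ _).trans hcd) (hn c hcA d hdA hc ⟨z, hzA, h, N, hN⟩)
  refine hn _ key.2 _ key.2 key.1 hCy ?_
  exact hN3 _ _ (le_max_left _ _) (le_max_left _ _)

/-- boundary points are closed -/
lemma ne_of_near (hH : Hyperbolic X) (o : X) {ξ η : Bdry X} (hne : ξ ≠ η) :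
    ∃ r : ℝ, ¬ Near o r ξ η := by
  obtain ⟨δ, hδ⟩ := hH
  by_contra hc
  push Not at hc
  apply hne
  obtain ⟨x, rfl⟩ := Quot.exists_rep ξ
  obtain ⟨y, rfl⟩ := Quot.exists_rep η
  refine mk_eq_of o x y ?_
  rw [tendsto1_iff]
  intro R
  obtain ⟨N, hN⟩ := near_spec hδ (hc (R + 2 * δ))
  exact ⟨N, fun i hi => hN i i hi hi⟩

/-- relatively open sets -/
lemma isOpen_sub (hH : Hyperbolic X) (o : X) (L : Set (Bdry X)) (O : Set L)
    (h : ∀ ξ ∈ O, ∃ r : ℝ, ∀ η : L, Near o r ξ.1 η.1 → η ∈ O) : IsOpen O := by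
  obtain ⟨δ, hδ⟩ := hH
  -- the interior of `M`
  let M : Set (Bdry X) := {η | ∀ h : η ∈ L, (⟨η, h⟩ : L) ∈ O}
  let I : Set (Bdry X) := {ξ | ∃ r : ℝ, ∀ η, Near o r ξ η → η ∈ M}
  have hI : IsOpen I := by
    intro o' ξ hξ
    obtain ⟨r, hr⟩ := hξ
    obtain ⟨x, rfl⟩ := Quot.exists_rep ξ
    refine ⟨r + dist o' o + 3 * |δ|, fun η hη => ?_⟩
    obtain ⟨y, rfl⟩ := Quot.exists_rep η
    refine ⟨r + 3 * |δ|, fun ζ hζ => ?_⟩
    obtain ⟨z, rfl⟩ := Quot.exists_rep ζ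
    apply hr
    have hd := le_abs_self δ
    have hd0 := abs_nonneg δ
    have e1 : Near o' ((r + dist o' o + (3 * |δ| - 2 * δ)) + 2 * δ) (Bdry.mk x) (Bdry.mk y) := by
      have : (r + dist o' o + (3 * |δ| - 2 * δ)) + 2 * δ = r + dist o' o + 3 * |δ| := by ring
      rw [this]; exact hη
    have e2 : Near o ((r + (3 * |δ| - 2 * δ)) + 2 * δ) (Bdry.mk y) (Bdry.mk z) := by
      have : (r + (3 * |δ| - 2 * δ)) + 2 * δ = r + 3 * |δ| := by ring
      rw [this]; exact hζ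
    obtain ⟨N1, hN1⟩ := near_spec hδ e1
    obtain ⟨N2, hN2⟩ := near_spec hδ e2
    refine near_of o x z r ⟨max N1 N2, fun i j hi hj => ?_⟩
    have a1 := hN1 i (max N1 N2) ((le_max_left _ _).trans hi) (le_max_left _ _)
    have a2 := hN2 (max N1 N2) j (le_max_right _ _) ((le_max_right _ _).trans hj)
    have a3 := gp_base o' o (x.1 i) (y.1 (max N1 N2))
    exact two_step hδ (y := y.1 (max N1 N2)) (by linarith) (by linarith)
  rw [isOpen_iff_mem_nhds]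
  intro ξ hξ
  obtain ⟨r, hr⟩ := h ξ hξ
  have hξI : ξ.1 ∈ I := ⟨r, fun η hη hηL => hr ⟨η, hηL⟩ hη⟩
  have hIO : (Subtype.val ⁻¹' I : Set L) ⊆ O := by
    intro η hη
    obtain ⟨s, hs⟩ := hη
    have hηM : η.1 ∈ M := by
      obtain ⟨⟨y, hy⟩, hyη⟩ : ∃ y : {y : GSeq X // True}, Bdry.mk y.1 = η.1 := by
        obtain ⟨y, hy⟩ := Quot.exists_rep η.1
        exact ⟨⟨y, trivial⟩, hy⟩
      rw [← hyη] at hs ⊢
      exact hs _ (near_of o y y s (gseq_spec o y s))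
    exact hηM η.2
  exact Filter.mem_of_superset ((hI.preimage continuous_subtype_val).mem_nhds hξI) hIO

theorem not_locallyConnected (hH : Hyperbolic X) (o : X) (A : Set X) (S : ℕ → Set X)
    (xm xp : GSeq X) (hxm : ∀ n, xm.1 n ∈ A) (hxp : ∀ n, xp.1 n ∈ A)
    (hne : Bdry.mk xm ≠ Bdry.mk xp)
    (sep : ∀ k, ∀ x y : ℕ → X, (∀ n, x n ∈ S k) → (∀ n, y n ∈ A ∧ y n ∉ S k) →
      Tendsto (fun n => gp o (x n) (y n)) atTop atTop →
      Tendsto (fun n => gp o (x n) (xm.1 n)) atTop atTop)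
    (hxpS : ∀ k, ∀ᶠ n in atTop, xp.1 n ∉ S k)
    (ζ : ℕ → GSeq X) (hζA : ∀ k n, (ζ k).1 n ∈ A) (hζS : ∀ k n, (ζ k).1 n ∈ S k)
    (hζm : ∀ k, Bdry.mk (ζ k) ≠ Bdry.mk xm)
    (r : ℕ → ℝ) (hr : Tendsto r atTop atTop) (hζp : ∀ k n, r k ≤ gp o (xp.1 k) ((ζ k).1 n)) :
    ¬ LocallyConnectedSpace (Lim A) := by
  intro hLC
  obtain ⟨δ, hδ⟩ := id hH
  -- the pieces
  let W : ℕ → Bdry X → Prop := fun k ξ => ∃ z : GSeq X, (∀ n, z.1 n ∈ S k) ∧ Bdry.mk z = ξ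
  have notW : ∀ k (y : GSeq X), ¬ W k (Bdry.mk y) → ∃ N, ∀ n, N ≤ n → y.1 n ∉ S k := by
    intro k y hy
    by_contra hc
    push Not at hc
    apply hy
    have hfr : ∃ᶠ n in atTop, y.1 n ∈ S k := by
      rw [frequently_atTop]
      exact hc
    obtain ⟨φ, hφ, hφS⟩ := extraction_of_frequently_atTop hfr
    exact ⟨sub y φ hφ.tendsto_atTop, hφS, mk_sub o y _ φ hφ.tendsto_atTop (fun n => rfl)⟩
  -- separation in terms of limit points
  have sepW : ∀ k (x y : GSeq X), (∀ n, x.1 n ∈ S k) → (∀ n, y.1 n ∈ A ∧ y.1 n ∉ S k) →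
      Bdry.mk x = Bdry.mk y → Bdry.mk x = Bdry.mk xm := by
    intro k x y hx hy hxy
    exact mk_eq_of o x xm (sep k _ _ hx hy ((mk_eq_iff hH).mp hxy o))
  have hxpW : ∀ k, ¬ W k (Bdry.mk xp) := by
    rintro k ⟨z, hz, hzx⟩
    obtain ⟨N, hN⟩ := eventually_atTop.mp (hxpS k)
    have ht : Tendsto (fun n => n + N) atTop atTop := tendsto_add_atTop_nat N
    have e1 := mk_sub o xp (sub xp _ ht) _ ht (fun n => rfl)
    have h1 := sepW k z (sub xp _ ht) hz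
      (fun n => ⟨hxp _, hN _ (Nat.le_add_left N n)⟩) (hzx.trans e1.symm)
    exact hne (h1.symm.trans hzx)
  set ξm : Bdry X := Bdry.mk xm with hξm
  -- relatively open pieces
  have openW : ∀ k, IsOpen {ξ : Lim A | ξ.1 ≠ ξm ∧ W k ξ.1} := by
    intro k
    apply isOpen_sub hH o
    rintro ⟨ξ, hξL⟩ ⟨hξm', z, hz, hzξ⟩
    by_contra hc
    push Not at hc
    obtain ⟨r0, hr0⟩ := ne_of_near hH o hξm'
    change ξ ≠ ξm at hξm'
    subst hzξ
    have step : ∀ n : ℕ, ∃ i, n ≤ i ∧ ∃ b, b ∈ A ∧ b ∉ S k ∧ (n : ℝ) ≤ gp o (z.1 i) b := by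
      intro n
      obtain ⟨⟨η, hηL⟩, hη1, hη2⟩ := hc (max r0 ((n : ℝ) + 2 * δ))
      have hmono : ∀ {a b : ℝ} {η : Bdry X}, a ≤ b → Near o b (Bdry.mk z) η →
          Near o a (Bdry.mk z) η := by
        rintro a b η hab ⟨x, y, h1, h2, h3⟩
        exact ⟨x, y, h1, h2, h3.mono fun p hp => hab.trans hp⟩
      have hηm : η ≠ ξm := by
        rintro rfl
        exact hr0 (hmono (le_max_left _ _) hη1)
      have hηW : ¬ W k η := fun h => hη2 ⟨hηm, h⟩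
      obtain ⟨y, hyA, rfl⟩ := hηL
      obtain ⟨N1, hN1⟩ := notW k y hηW
      obtain ⟨N2, hN2⟩ := near_spec hδ (hmono (le_max_right _ _) hη1)
      refine ⟨max n N2, le_max_left _ _, y.1 (max N1 N2), hyA _, hN1 _ (le_max_left _ _),
        hN2 _ _ (le_max_right _ _) (le_max_right _ _)⟩
    choose i hi b hbA hbS hib using step
    have ht : Tendsto i atTop atTop := tendsto_atTop_mono hi tendsto_id
    have h1 := sep k (fun n => z.1 (i n)) b (fun n => hz _) (fun n => ⟨hbA n, hbS n⟩)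
      (tendsto_atTop_mono hib tendsto_natCast_atTop_atTop)
    have e1 := mk_sub o z (sub z i ht) i ht (fun n => rfl)
    have e2 := mk_eq_of o (sub z i ht) xm h1
    exact hξm' (e1.symm.trans e2)
  have openW' : ∀ k, IsOpen {ξ : Lim A | ξ.1 ≠ ξm ∧ ¬ W k ξ.1} := by
    intro k
    apply isOpen_sub hH o
    rintro ⟨ξ, hξL⟩ ⟨hξm', hξW⟩
    by_contra hc
    push Not at hc
    obtain ⟨r0, hr0⟩ := ne_of_near hH o hξm'
    change ξ ≠ ξm at hξm'
    obtain ⟨y, hyA, rfl⟩ := hξL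
    obtain ⟨N0, hN0⟩ := notW k y hξW
    have step : ∀ n : ℕ, ∃ i, n ≤ i ∧ N0 ≤ i ∧ ∃ b, b ∈ S k ∧ (n : ℝ) ≤ gp o b (y.1 i) := by
      intro n
      obtain ⟨⟨η, hηL⟩, hη1, hη2⟩ := hc (max r0 ((n : ℝ) + 2 * δ))
      have hmono : ∀ {a b : ℝ} {η : Bdry X}, a ≤ b → Near o b (Bdry.mk y) η →
          Near o a (Bdry.mk y) η := by
        rintro a b η hab ⟨x, y, h1, h2, h3⟩
        exact ⟨x, y, h1, h2, h3.mono fun p hp => hab.trans hp⟩
      have hηm : η ≠ ξm := by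
        rintro rfl
        exact hr0 (hmono (le_max_left _ _) hη1)
      have hηW : W k η := by
        by_contra h
        exact hη2 ⟨hηm, h⟩
      obtain ⟨z, hz, rfl⟩ := hηW
      obtain ⟨N2, hN2⟩ := near_spec hδ (hmono (le_max_right _ _) hη1)
      refine ⟨max n (max N0 N2), le_max_left _ _, (le_max_left _ _).trans (le_max_right _ _),
        z.1 N2, hz _, ?_⟩
      rw [gp_comm]
      exact hN2 _ _ ((le_max_right _ _).trans (le_max_right _ _)) le_rfl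
    choose i hi hi0 b hbS hib using step
    have ht : Tendsto i atTop atTop := tendsto_atTop_mono hi tendsto_id
    have h1 := sep k b (fun n => y.1 (i n)) hbS (fun n => ⟨hyA _, hN0 _ (hi0 n)⟩)
      (tendsto_atTop_mono hib tendsto_natCast_atTop_atTop)
    have e1 := mk_sub o y (sub y i ht) i ht (fun n => rfl)
    have e2 : Bdry.mk (sub y i ht) = Bdry.mk xm := by
      refine mk_eq_of o _ _ ?_
      rw [tendsto1_iff]
      intro R
      obtain ⟨M1, hM1⟩ := (tendsto1_iff _).mp h1 (R + δ)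
      obtain ⟨M2, hM2⟩ := exists_nat_ge (R + δ)
      refine ⟨max M1 M2, fun n hn => ?_⟩
      have c1 := hM1 n ((le_max_left _ _).trans hn)
      have c2 : (M2 : ℝ) ≤ (n : ℝ) := by exact_mod_cast (le_max_right _ _).trans hn
      have c3 := hib n
      rw [gp_comm] at c3
      exact two_step hδ (y := b n) (by change R + δ ≤ gp o (y.1 (i n)) (b n); linarith) c1
    exact hξm' (e1.symm.trans e2)
  -- the connected neighbourhood
  have hpL : Bdry.mk xp ∈ Lim A := ⟨xp, hxp, rfl⟩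
  have hO : IsOpen {ξ : Lim A | ξ.1 ≠ ξm} := by
    apply isOpen_sub hH o
    rintro ⟨ξ, hξL⟩ hξm'
    obtain ⟨r0, hr0⟩ := ne_of_near hH o hξm'
    refine ⟨r0, ?_⟩
    rintro ⟨η, hηL⟩ hη rfl
    exact hr0 hη
  obtain ⟨V, hVO, hVopen, hpV, hVconn⟩ :=
    (locallyConnectedSpace_iff_subsets_isOpen_isConnected.mp hLC) ⟨Bdry.mk xp, hpL⟩
      {ξ : Lim A | ξ.1 ≠ ξm} (hO.mem_nhds (fun h => hne h.symm))
  obtain ⟨V', hV'open, hV'⟩ := isOpen_induced_iff.mp hVopen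
  have hpV' : Bdry.mk xp ∈ V' := by
    have : (⟨Bdry.mk xp, hpL⟩ : Lim A) ∈ (Subtype.val ⁻¹' V' : Set (Lim A)) := by rw [hV']; exact hpV
    exact this
  obtain ⟨R, hR⟩ := hV'open o _ hpV'
  obtain ⟨N1, hN1⟩ := gseq_spec o xp (R + δ)
  obtain ⟨N2, hN2⟩ := (tendsto1_iff _).mp hr (R + δ)
  set k := max N1 N2 with hk
  have hζV' : Bdry.mk (ζ k) ∈ V' := by
    apply hR
    refine near_of o xp (ζ k) R ⟨N1, fun i j hi _ => ?_⟩
    exact two_step hδ (hN1 i k hi (le_max_left _ _))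
      ((hN2 k (le_max_right _ _)).trans (hζp k j))
  have hζL : Bdry.mk (ζ k) ∈ Lim A := ⟨ζ k, hζA k, rfl⟩
  have hζV : (⟨Bdry.mk (ζ k), hζL⟩ : Lim A) ∈ V := by rw [← hV']; exact hζV'
  have hpre := hVconn.isPreconnected _ _ (openW k) (openW' k)
    (by
      intro ξ hξ
      by_cases h : W k ξ.1
      · exact Or.inl ⟨hVO hξ, h⟩
      · exact Or.inr ⟨hVO hξ, h⟩)
    ⟨⟨Bdry.mk (ζ k), hζL⟩, hζV, hζm k, ζ k, hζS k, rfl⟩
    ⟨⟨Bdry.mk xp, hpL⟩, hpV, fun h => hne h.symm, hxpW k⟩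
  obtain ⟨ξ, -, ⟨-, h1⟩, -, h2⟩ := hpre
  exact h2 h1

end Pool.Agent.helper82.LCB
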