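import Mathlib
import Pool.Agent.helper99.LC.RACGDefs

/-!
# Right-angled Coxeter groups: reflections, exchange, descents
-/

set_option autoImplicit false

namespace Pool.Agent.helper82.LC

open Pool.Agent.helper99.LC

open scoped Classical

section

variable {S : Type} [DecidableEq S] (G : SimpleGraph S) [DecidableRel G.Adj]

omit [DecidableRel G.Adj] in
lemma raMat_self [DecidableRel G.Adj] (s : S) : (raMat G).M s s = 1 := by
  simp [raMat]

lemma raMat_apply (s t : S) :
    (raMat G).M s t = if s = t then 1 else if G.Adj s t then 2 else 0 := rfl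

/-- criterion for liftable maps -/
lemma liftable {M : Type*} [Monoid M] (f : S → M) (h1 : ∀ s, f s * f s = 1)
    (h2 : ∀ s t, G.Adj s t → f s * f t = f t * f s) : (raMat G).IsLiftable f := by
  intro s t
  change (f s * f t) ^ ((raMat G).M s t) = 1
  rw [raMat_apply]
  split_ifs with h h'
  · subst h; simpa using h1 s
  · rw [pow_two, mul_assoc, ← mul_assoc (f t), ← h2 s t h', mul_assoc (f s) (f t) (f t), h1 t,
      mul_one, h1 s]
  · simp

lemma gen_mul_self (s : S) : gen G s * gen G s = 1 :=
  (raSys G).simple_mul_simple_self s

@[simp] lemma gen_inv (s : S) : (gen G s)⁻¹ = gen G s := (raSys G).inv_simple s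

@[simp] lemma gen_mul_cancel (s : S) (g : RW G) : gen G s * (gen G s * g) = g := by
  rw [← mul_assoc, gen_mul_self, one_mul]

@[simp] lemma mul_gen_cancel (s : S) (g : RW G) : g * gen G s * gen G s = g := by
  rw [mul_assoc, gen_mul_self, mul_one]

lemma gen_comm {s t : S} (h : G.Adj s t) : gen G s * gen G t = gen G t * gen G s := by
  have h0 : (gen G s * gen G t) ^ ((raMat G).M s t) = 1 := (raSys G).simple_mul_simple_pow s t
  rw [raMat_apply, if_neg h.ne, if_pos h, pow_two] at h0
  calc gen G s * gen G t = (gen G s * gen G t)⁻¹ := by
        rw [eq_inv_iff_mul_eq_one]; exact h0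
    _ = gen G t * gen G s := by simp

/-- the sign character at `s` -/
noncomputable def chi (s : S) : RW G →* ℤˣ :=
  (raSys G).lift ⟨fun u => if u = s then -1 else 1, liftable G _
    (by intro u; split_ifs <;> simp) (by intro u v _; rw [mul_comm])⟩

lemma chi_gen (s u : S) : chi G s (gen G u) = if u = s then -1 else 1 := by
  unfold chi gen
  rw [(raSys G).lift_apply_simple]

lemma gen_inj {s t : S} (h : gen G s = gen G t) : s = t := by
  by_contra hne
  have h1 := chi_gen G t s
  rw [h, chi_gen G t t] at h1
  simp [hne] at h1

lemma gen_ne_one (s : S) : gen G s ≠ 1 := by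
  intro h
  have h1 := chi_gen G s s
  rw [h, map_one] at h1
  simp at h1

/-- the signed permutation of reflections by a generator -/
noncomputable def stepF (s : S) : Function.End (RW G × ZMod 2) :=
  fun p => (gen G s * p.1 * gen G s, p.2 + if p.1 = gen G s then 1 else 0)

noncomputable def Phi : RW G →* Function.End (RW G × ZMod 2) :=
  (raSys G).lift ⟨stepF G, liftable G _
    (by
      intro s
      funext p
      obtain ⟨t, a⟩ := p
      have hiff : gen G s * t * gen G s = gen G s ↔ t = gen G s := by
        constructor
        · intro h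
          have := congrArg (fun x => gen G s * x * gen G s) h
          simpa [mul_assoc, gen_mul_self] using this
        · rintro rfl; simp [gen_mul_self]
      change stepF G s (stepF G s (t, a)) = (t, a)
      simp only [stepF, hiff]
      refine Prod.ext ?_ ?_
      · simp [mul_assoc, gen_mul_self]
      · change a + _ + _ = a
        rw [add_assoc, CharTwo.add_self_eq_zero, add_zero])
    (by
      intro s u hsu
      have hc := gen_comm G hsu
      funext p
      obtain ⟨t, a⟩ := p
      have key : ∀ (x y : S), G.Adj x y → (gen G x * t * gen G x = gen G y ↔ t = gen G y) := by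
        intro x y hxy
        have hc := gen_comm G hxy
        constructor
        · intro h
          have h' := congrArg (fun z => gen G x * z * gen G x) h
          simp only [mul_assoc, gen_mul_cancel, gen_mul_self, mul_one] at h'
          rw [h', ← hc]
          simp
        · rintro rfl
          rw [hc, mul_assoc, gen_mul_self, mul_one]
      change stepF G s (stepF G u (t, a)) = stepF G u (stepF G s (t, a))
      simp only [stepF, key s u hsu, key u s hsu.symm]
      refine Prod.ext ?_ ?_
      · change gen G s * (gen G u * t * gen G u) * gen G s =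
          gen G u * (gen G s * t * gen G s) * gen G u
        calc gen G s * (gen G u * t * gen G u) * gen G s
            = (gen G s * gen G u) * t * (gen G u * gen G s) := by group
          _ = (gen G u * gen G s) * t * (gen G s * gen G u) := by rw [hc]
          _ = _ := by group
      · change a + _ + _ = a + _ + _
        rw [add_right_comm])⟩

lemma Phi_gen (s : S) : Phi G (gen G s) = stepF G s := by
  unfold Phi gen
  rw [(raSys G).lift_apply_simple]

/-- `cc g t`: number mod 2 of occurrences of `t` in the right inversion sequence of `g` -/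
noncomputable def cc (g t : RW G) : ZMod 2 := (Phi G g (t, 0)).2

lemma Phi_apply (g t : RW G) (a : ZMod 2) : Phi G g (t, a) = (g * t * g⁻¹, a + cc G g t) := by
  induction g using (raSys G).simple_induction_left generalizing t a with
  | one =>
    have h1 : ∀ p, Phi G 1 p = p := by intro p; rw [map_one]; rfl
    rw [h1]
    unfold cc
    rw [h1]
    simp
  | mul_simple_left w i ih =>
    have hs : ∀ p, Phi G ((raSys G).simple i * w) p = stepF G i (Phi G w p) := by
      intro p
      rw [map_mul]
      change (Phi G (gen G i) * Phi G w) p = _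
      rw [Phi_gen]
      rfl
    have hc : cc G ((raSys G).simple i * w) t =
        cc G w t + if w * t * w⁻¹ = gen G i then 1 else 0 := by
      unfold cc
      rw [hs, ih]
      simp [stepF, cc]
    rw [hs, ih, hc]
    simp only [stepF]
    refine Prod.ext ?_ ?_
    · change gen G i * (w * t * w⁻¹) * gen G i = gen G i * w * t * (gen G i * w)⁻¹
      rw [mul_inv_rev, gen_inv]
      group
    · change a + _ + _ = a + (_ + _)
      rw [add_assoc]

lemma cc_mul (g h t : RW G) : cc G (g * h) t = cc G h t + cc G g (h * t * h⁻¹) := by
  have h1 : Phi G (g * h) (t, 0) = Phi G g (Phi G h (t, 0)) := by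
    rw [map_mul]; rfl
  unfold cc
  rw [h1, Phi_apply G h, Phi_apply G g]
  simp [cc]

/-- `nn g t = 1` iff the reflection `t` separates `1` and `g` -/
noncomputable def nn (g t : RW G) : ZMod 2 := cc G g⁻¹ t

lemma nn_mul (g h t : RW G) : nn G (g * h) t = nn G g t + nn G h (g⁻¹ * t * g) := by
  unfold nn
  rw [mul_inv_rev, cc_mul, inv_inv]

lemma nn_gen (s : S) (t : RW G) : nn G (gen G s) t = if t = gen G s then 1 else 0 := by
  unfold nn cc
  rw [gen_inv, Phi_gen]
  simp [stepF]

lemma nn_gen_self (s : S) : nn G (gen G s) (gen G s) = 1 := by simp [nn_gen]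

lemma nn_one (t : RW G) : nn G 1 t = 0 := by
  have h := nn_mul G 1 1 t
  simp only [mul_one, inv_one, one_mul] at h
  have h2 : nn G 1 t + 0 = nn G 1 t + nn G 1 t := by rw [add_zero]; exact h
  exact (add_left_cancel h2).symm

lemma nn_inv (g t : RW G) : nn G g⁻¹ t = nn G g (g * t * g⁻¹) := by
  have h := nn_mul G g⁻¹ g t
  rw [inv_mul_cancel, nn_one, inv_inv] at h
  exact (CharTwo.add_eq_zero.mp h.symm)

lemma nn_gen_mul (s : S) (g t : RW G) :
    nn G (gen G s * g) t = (if t = gen G s then 1 else 0) + nn G g (gen G s * t * gen G s) := by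
  rw [nn_mul, nn_gen, gen_inv]

/-- if `nn` does not vanish then `t` is in the left inversion sequence -/
lemma mem_lis (ω : List S) (t : RW G) (h : nn G ((raSys G).wordProd ω) t ≠ 0) :
    t ∈ (raSys G).leftInvSeq ω := by
  induction ω generalizing t with
  | nil => simp [nn_one] at h
  | cons i ω ih =>
    rw [(raSys G).wordProd_cons] at h
    change nn G (gen G i * _) t ≠ 0 at h
    rw [nn_gen_mul] at h
    by_cases ht : t = gen G i
    · subst ht
      exact List.mem_cons_self
    · rw [if_neg ht, zero_add] at h
      have h1 := ih _ h
      refine List.mem_cons_of_mem _ ?_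
      rw [List.mem_map]
      refine ⟨_, h1, ?_⟩
      rw [MulAut.conj_apply]
      change gen G i * (gen G i * t * gen G i) * (gen G i)⁻¹ = t
      rw [gen_inv]
      simp [mul_assoc, gen_mul_self]

lemma nn_eq_or (g t : RW G) : nn G g t = 0 ∨ nn G g t = 1 := by
  generalize nn G g t = x
  revert x; decide

lemma nn_ne_zero {g t : RW G} : nn G g t ≠ 0 ↔ nn G g t = 1 := by
  generalize nn G g t = x
  revert x; decide

lemma nn_ne_one {g t : RW G} : nn G g t ≠ 1 ↔ nn G g t = 0 := by
  generalize nn G g t = x
  revert x; decide

/-- left multiplication by a separating reflection shortens -/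
lemma len_lt_of_nn {g t : RW G} (h : nn G g t = 1) : rlen G (t * g) < rlen G g := by
  obtain ⟨ω, hω, rfl⟩ := (raSys G).exists_isReduced g
  have h1 := mem_lis G ω t (by rw [h]; decide)
  exact ((raSys G).isLeftInversion_of_mem_leftInvSeq hω h1).2

/-- simple case, both directions -/
lemma nn_gen_iff {g : RW G} {s : S} : nn G g (gen G s) = 1 ↔ rlen G (gen G s * g) < rlen G g := by
  constructor
  · exact len_lt_of_nn G
  · intro h
    by_contra h0
    replace h0 := (nn_ne_one G).mp h0
    have h1 : nn G (gen G s * g) (gen G s) = 1 := by
      rw [nn_gen_mul, if_pos rfl]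
      rw [gen_mul_self, one_mul, h0, add_zero]
    have h2 := len_lt_of_nn G h1
    rw [gen_mul_cancel] at h2
    omega

end

end Pool.Agent.helper82.LC
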