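import Mathlib
import Pool.Agent.helper82.LC.Refl

/-!
# Right-angled Coxeter groups: the line of two non adjacent generators, descents commute,
and additivity of lengths
-/

set_option autoImplicit false

namespace Pool.Agent.helper82.LC

open Pool.Agent.helper99.LC

open scoped Classical

section

variable {S : Type} [DecidableEq S] (G : SimpleGraph S) [DecidableRel G.Adj]

lemma rlen_one : rlen G 1 = 0 := (raSys G).length_one

lemma rlen_inv (g : RW G) : rlen G g⁻¹ = rlen G g := (raSys G).length_inv g

lemma rlen_mul_le (g h : RW G) : rlen G (g * h) ≤ rlen G g + rlen G h :=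
  (raSys G).length_mul_le g h

lemma rlen_gen (s : S) : rlen G (gen G s) = 1 := (raSys G).length_simple s

lemma rlen_eq_zero {g : RW G} : rlen G g = 0 ↔ g = 1 := (raSys G).length_eq_zero_iff

lemma rlen_gen_mul (s : S) (g : RW G) :
    rlen G (gen G s * g) = rlen G g + 1 ∨ rlen G (gen G s * g) + 1 = rlen G g :=
  (raSys G).length_simple_mul g s

lemma rlen_mul_gen (g : RW G) (s : S) :
    rlen G (g * gen G s) = rlen G g + 1 ∨ rlen G (g * gen G s) + 1 = rlen G g :=
  (raSys G).length_mul_simple g s

lemma rlen_gen_mul_le (s : S) (g : RW G) : rlen G (gen G s * g) ≤ rlen G g + 1 := by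
  rcases rlen_gen_mul G s g with h | h <;> omega

lemma rlen_mul_gen_le (g : RW G) (s : S) : rlen G (g * gen G s) ≤ rlen G g + 1 := by
  rcases rlen_mul_gen G g s with h | h <;> omega

lemma exists_rdesc {g : RW G} (hg : g ≠ 1) : ∃ s, rlen G (g * gen G s) < rlen G g :=
  (raSys G).exists_rightDescent_of_ne_one hg

lemma exists_ldesc {g : RW G} (hg : g ≠ 1) : ∃ s, rlen G (gen G s * g) < rlen G g :=
  (raSys G).exists_leftDescent_of_ne_one hg

lemma rdesc_iff (g : RW G) (s : S) :
    rlen G (g * gen G s) < rlen G g ↔ rlen G (gen G s * g⁻¹) < rlen G g⁻¹ := by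
  rw [rlen_inv, ← rlen_inv G (g * gen G s), mul_inv_rev, gen_inv]

/-! ### The line -/

lemma zpow_mul_gen {v v' : S} (k : ℤ) :
    gen G v * (gen G v * gen G v') ^ k = (gen G v * gen G v') ^ (-k) * gen G v := by
  have h : gen G v * (gen G v * gen G v') * (gen G v)⁻¹ = (gen G v * gen G v')⁻¹ := by
    simp [mul_assoc]
  have h2 : gen G v * (gen G v * gen G v') ^ k * (gen G v)⁻¹ = (gen G v * gen G v') ^ (-k) := by
    rw [← conj_zpow, h, inv_zpow, zpow_neg]
  rw [← h2]
  simp

lemma eLine_zero (v v' : S) : eLine G v v' 0 = 1 := by simp [eLine]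

lemma eLine_two_mul (v v' : S) (k : ℤ) : eLine G v v' (2 * k) = (gen G v * gen G v') ^ k := by
  unfold eLine
  have h1 : 2 * k / 2 = k := by omega
  have h2 : 2 * k % 2 = 0 := by omega
  rw [h1, if_pos h2, mul_one]

lemma eLine_two_mul_add_one (v v' : S) (k : ℤ) :
    eLine G v v' (2 * k + 1) = (gen G v * gen G v') ^ k * gen G v := by
  unfold eLine
  have h1 : (2 * k + 1) / 2 = k := by omega
  have h2 : ¬ (2 * k + 1) % 2 = 0 := by omega
  rw [h1, if_neg h2]

lemma gen_mul_eLine (v v' : S) (n : ℤ) : gen G v * eLine G v v' n = eLine G v v' (1 - n) := by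
  rcases Int.even_or_odd' n with ⟨k, rfl | rfl⟩
  · have h : (1 - 2 * k : ℤ) = 2 * (-k) + 1 := by ring
    rw [h, eLine_two_mul, eLine_two_mul_add_one, zpow_mul_gen]
  · have h : (1 - (2 * k + 1) : ℤ) = 2 * (-k) := by ring
    rw [h, eLine_two_mul, eLine_two_mul_add_one, ← mul_assoc, zpow_mul_gen, mul_gen_cancel]

lemma gen'_mul_eLine (v v' : S) (n : ℤ) :
    gen G v' * eLine G v v' n = eLine G v v' (-1 - n) := by
  have h0 : gen G v' = (gen G v * gen G v') ^ (-1 : ℤ) * gen G v := by
    simp [mul_assoc, gen_mul_self]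
  rcases Int.even_or_odd' n with ⟨k, rfl | rfl⟩
  · have h : (-1 - 2 * k : ℤ) = 2 * (-k - 1) + 1 := by ring
    rw [h, eLine_two_mul, eLine_two_mul_add_one]
    have h1 : gen G v' * (gen G v * gen G v') ^ k =
        ((gen G v * gen G v') ^ (-1 : ℤ) * gen G v) * (gen G v * gen G v') ^ k := by rw [← h0]
    rw [h1, mul_assoc, zpow_mul_gen, ← mul_assoc, ← zpow_add]
    congr 2
    ring
  · have h : (-1 - (2 * k + 1) : ℤ) = 2 * (-k - 1) := by ring
    rw [h, eLine_two_mul, eLine_two_mul_add_one]
    have h1 : gen G v' * ((gen G v * gen G v') ^ k * gen G v) =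
        ((gen G v * gen G v') ^ (-1 : ℤ) * gen G v) * ((gen G v * gen G v') ^ k * gen G v) := by
      rw [← h0]
    rw [h1, mul_assoc, ← mul_assoc (gen G v), zpow_mul_gen, mul_gen_cancel, ← zpow_add]
    congr 1
    ring

lemma eLine_one (v v' : S) : eLine G v v' 1 = gen G v := by
  have h := gen_mul_eLine G v v' 0
  rw [eLine_zero, mul_one] at h
  simpa using h.symm

lemma eLine_neg_one (v v' : S) : eLine G v v' (-1) = gen G v' := by
  have h := gen'_mul_eLine G v v' 0
  rw [eLine_zero, mul_one] at h
  simpa using h.symm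

lemma eLine_mul_of_even (v v' : S) {m : ℤ} (hm : m % 2 = 0) (n : ℤ) :
    eLine G v v' m * eLine G v v' n = eLine G v v' (m + n) := by
  obtain ⟨k, rfl⟩ : ∃ k, m = 2 * k := ⟨m / 2, by omega⟩
  rcases Int.even_or_odd' n with ⟨l, rfl | rfl⟩
  · rw [← mul_add, eLine_two_mul, eLine_two_mul, eLine_two_mul, zpow_add]
  · rw [← add_assoc, ← mul_add, eLine_two_mul, eLine_two_mul_add_one, eLine_two_mul_add_one,
      zpow_add, mul_assoc]

lemma eLine_mul_of_odd (v v' : S) {m : ℤ} (hm : m % 2 = 1) (n : ℤ) :
    eLine G v v' m * eLine G v v' n = eLine G v v' (m - n) := by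
  have h1 : eLine G v v' m = eLine G v v' (m - 1) * gen G v := by
    obtain ⟨k, rfl⟩ : ∃ k, m = 2 * k + 1 := ⟨m / 2, by omega⟩
    rw [add_sub_cancel_right, eLine_two_mul, eLine_two_mul_add_one]
  rw [h1, mul_assoc, gen_mul_eLine, eLine_mul_of_even G v v' (by omega)]
  congr 1
  ring

lemma eLine_inv (v v' : S) (m : ℤ) :
    (eLine G v v' m)⁻¹ = eLine G v v' (if m % 2 = 0 then -m else m) := by
  rw [inv_eq_iff_mul_eq_one]
  split_ifs with h
  · rw [eLine_mul_of_even G v v' h]; simp [eLine_zero]
  · rw [eLine_mul_of_odd G v v' (by omega)]; simp [eLine_zero]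

lemma eLine_inv_mul (v v' : S) (m n : ℤ) :
    (eLine G v v' m)⁻¹ * eLine G v v' n = eLine G v v' (if m % 2 = 0 then n - m else m - n) := by
  rw [eLine_inv]
  split_ifs with h
  · rw [eLine_mul_of_even G v v' (by omega)]
    congr 1; ring
  · rw [eLine_mul_of_odd G v v' (by omega)]

lemma eLine_succ (v v' : S) (n : ℤ) :
    eLine G v v' (n + 1) = eLine G v v' n * gen G (if n % 2 = 0 then v else v') := by
  split_ifs with h
  · rw [← eLine_one G v v', eLine_mul_of_even G v v' h]
  · rw [← eLine_neg_one G v v', eLine_mul_of_odd G v v' (by omega)]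
    congr 1

variable {G} in
/-- representation detecting the line -/
noncomputable def lineRep {v v' : S} (hn : ¬ G.Adj v v') : RW G →* Function.End ℤ :=
  (raSys G).lift ⟨fun u => if u = v then (fun x : ℤ => 1 - x) else
      if u = v' then (fun x : ℤ => -1 - x) else (fun x : ℤ => x),
    liftable G _
    (by
      intro u
      funext x
      change (if u = v then (fun x : ℤ => 1 - x) else
        if u = v' then (fun x : ℤ => -1 - x) else (fun x : ℤ => x))
          ((if u = v then (fun x : ℤ => 1 - x) else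
        if u = v' then (fun x : ℤ => -1 - x) else (fun x : ℤ => x)) x) = x
      split_ifs <;> ring_nf)
    (by
      intro a b hab
      have hne := hab.ne
      funext x
      change (if a = v then (fun x : ℤ => 1 - x) else
        if a = v' then (fun x : ℤ => -1 - x) else (fun x : ℤ => x))
          ((if b = v then (fun x : ℤ => 1 - x) else
        if b = v' then (fun x : ℤ => -1 - x) else (fun x : ℤ => x)) x) =
        (if b = v then (fun x : ℤ => 1 - x) else
        if b = v' then (fun x : ℤ => -1 - x) else (fun x : ℤ => x))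
          ((if a = v then (fun x : ℤ => 1 - x) else
        if a = v' then (fun x : ℤ => -1 - x) else (fun x : ℤ => x)) x)
      by_cases h1 : a = v
      · subst h1
        have hb : b ≠ v' := by rintro rfl; exact hn hab
        rw [if_pos rfl, if_neg (Ne.symm hne), if_neg hb]
      · rw [if_neg h1]
        by_cases h2 : a = v'
        · subst h2
          have hb : b ≠ v := by rintro rfl; exact hn hab.symm
          rw [if_pos rfl, if_neg hb, if_neg (Ne.symm hne)]
        · rw [if_neg h2])⟩

lemma lineRep_gen {v v' : S} (hn : ¬ G.Adj v v') (u : S) :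
    lineRep hn (gen G u) = if u = v then (fun x : ℤ => 1 - x) else
      if u = v' then (fun x : ℤ => -1 - x) else (fun x : ℤ => x) := by
  unfold lineRep gen
  rw [(raSys G).lift_apply_simple]
  rfl

lemma lineRep_le {v v' : S} (hn : ¬ G.Adj v v') (g : RW G) :
    (lineRep hn g 0).natAbs ≤ rlen G g := by
  obtain ⟨ω, hω, rfl⟩ := (raSys G).exists_isReduced g
  have key : ∀ ω : List S, (lineRep hn ((raSys G).wordProd ω) 0).natAbs ≤ ω.length := by
    intro ω
    induction ω with
    | nil =>
      rw [(raSys G).wordProd_nil, map_one]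
      change (0 : ℤ).natAbs ≤ _
      simp
    | cons u ω ih =>
      rw [(raSys G).wordProd_cons, map_mul]
      change (lineRep hn (gen G u) (lineRep hn ((raSys G).wordProd ω) 0)).natAbs ≤ _
      rw [lineRep_gen, List.length_cons]
      split_ifs
      · change (1 - lineRep hn ((raSys G).wordProd ω) 0).natAbs ≤ _
        omega
      · change (-1 - lineRep hn ((raSys G).wordProd ω) 0).natAbs ≤ _
        omega
      · exact ih.trans (Nat.le_succ _)
  exact (key ω).trans (le_of_eq hω.symm)

lemma lineRep_eLine {v v' : S} (hn : ¬ G.Adj v v') (hv : v ≠ v') (n : ℤ) :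
    lineRep hn (eLine G v v' n) = if n % 2 = 0 then (fun x => n + x) else (fun x => n - x) := by
  have hg : lineRep hn (gen G v) = fun x : ℤ => 1 - x := by rw [lineRep_gen, if_pos rfl]
  have hg' : lineRep hn (gen G v') = fun x : ℤ => -1 - x := by
    rw [lineRep_gen, if_neg (Ne.symm hv), if_pos rfl]
  have up : ∀ m : ℤ, lineRep hn (eLine G v v' m) =
      (if m % 2 = 0 then (fun x => m + x) else (fun x => m - x)) →
      lineRep hn (eLine G v v' (m + 1)) =
      (if (m + 1) % 2 = 0 then (fun x => (m + 1) + x) else (fun x => (m + 1) - x)) := by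
    intro m hm
    rw [eLine_succ, map_mul, hm]
    by_cases h : m % 2 = 0
    · rw [if_pos h, if_pos h, if_neg (by omega), hg]
      funext x
      change m + (1 - x) = m + 1 - x
      ring
    · rw [if_neg h, if_neg h, if_pos (by omega), hg']
      funext x
      change m - (-1 - x) = m + 1 + x
      ring
  have down : ∀ m : ℤ, lineRep hn (eLine G v v' m) =
      (if m % 2 = 0 then (fun x => m + x) else (fun x => m - x)) →
      lineRep hn (eLine G v v' (m - 1)) =
      (if (m - 1) % 2 = 0 then (fun x => (m - 1) + x) else (fun x => (m - 1) - x)) := by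
    intro m hm
    have h1 : eLine G v v' (m - 1) =
        eLine G v v' m * gen G (if (m - 1) % 2 = 0 then v else v') := by
      have h2 := eLine_succ G v v' (m - 1)
      rw [sub_add_cancel] at h2
      rw [h2, mul_gen_cancel]
    rw [h1, map_mul, hm]
    by_cases h : m % 2 = 0
    · rw [if_pos h, if_neg (by omega), if_neg (by omega), hg']
      funext x
      change m + (-1 - x) = m - 1 - x
      ring
    · rw [if_neg h, if_pos (by omega), if_pos (by omega), hg]
      funext x
      change m - (1 - x) = m - 1 + x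
      ring
  induction n using Int.induction_on with
  | zero =>
    rw [eLine_zero, map_one]
    funext x
    change x = _
    simp
  | succ i ih => exact up i ih
  | pred i ih => exact down (-i) ih

lemma rlen_eLine_le (v v' : S) (n : ℕ) :
    rlen G (eLine G v v' n) ≤ n ∧ rlen G (eLine G v v' (-n)) ≤ n := by
  induction n with
  | zero => simp [eLine_zero, rlen_one]
  | succ n ih =>
    constructor
    · have h := gen_mul_eLine G v v' (-n)
      have h2 : (1 - -(n : ℤ)) = ((n + 1 : ℕ) : ℤ) := by push_cast; ring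
      rw [h2] at h
      rw [← h]
      exact (rlen_gen_mul_le G _ _).trans (by omega)
    · have h := gen'_mul_eLine G v v' n
      have h2 : (-1 - (n : ℤ)) = -((n + 1 : ℕ) : ℤ) := by push_cast; ring
      rw [h2] at h
      rw [← h]
      exact (rlen_gen_mul_le G _ _).trans (by omega)

theorem rlen_eLine {v v' : S} (hn : ¬ G.Adj v v') (hv : v ≠ v') (n : ℤ) :
    rlen G (eLine G v v' n) = n.natAbs := by
  apply le_antisymm
  · rcases Int.natAbs_eq n with h | h
    · have := (rlen_eLine_le G v v' n.natAbs).1
      rwa [← h] at this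
    · have := (rlen_eLine_le G v v' n.natAbs).2
      rwa [← h] at this
  · have h1 := lineRep_le G hn (eLine G v v' n)
    rw [lineRep_eLine G hn hv] at h1
    have h2 : ((if n % 2 = 0 then (fun x : ℤ => n + x) else (fun x => n - x)) : ℤ → ℤ) 0 = n := by
      split_ifs <;> simp
    have h3 : (((if n % 2 = 0 then (fun x : ℤ => n + x) else (fun x => n - x)) : ℤ → ℤ)
        0).natAbs ≤ rlen G (eLine G v v' n) := h1
    rw [h2] at h3
    exact h3

/-! ### Two descents are adjacent -/

theorem desc_comm (g : RW G) (s t : S) (hst : s ≠ t) (hs : rlen G (gen G s * g) < rlen G g)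
    (ht : rlen G (gen G t * g) < rlen G g) : G.Adj s t := by
  by_contra hn
  have hs' := (nn_gen_iff G).mpr hs
  have ht' := (nn_gen_iff G).mpr ht
  have key : ∀ m : ℕ, rlen G ((eLine G s t m)⁻¹ * g) + m ≤ rlen G g ∧
      rlen G ((eLine G s t (-m))⁻¹ * g) + m ≤ rlen G g := by
    intro m
    induction m with
    | zero => simp [eLine_zero]
    | succ m ih =>
      constructor
      · have h := gen_mul_eLine G s t (-m)
        have h2 : (1 - -(m : ℤ)) = ((m + 1 : ℕ) : ℤ) := by push_cast; ring
        rw [h2] at h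
        have h0 : nn G (eLine G s t (-m)) (gen G s) = 0 := by
          rw [← nn_ne_one, ne_eq, nn_gen_iff, h, rlen_eLine G hn hst, rlen_eLine G hn hst]
          omega
        have h3 : nn G ((eLine G s t (-m))⁻¹ * g)
            ((eLine G s t (-m))⁻¹ * gen G s * eLine G s t (-m)) = 1 := by
          have h4 := nn_mul G (eLine G s t (-m)) ((eLine G s t (-m))⁻¹ * g) (gen G s)
          rw [mul_inv_cancel_left, hs', h0, zero_add] at h4
          exact h4.symm
        have h5 := len_lt_of_nn G h3
        have h6 : (eLine G s t (-m))⁻¹ * gen G s * eLine G s t (-m) * ((eLine G s t (-m))⁻¹ * g) =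
            (eLine G s t ((m + 1 : ℕ) : ℤ))⁻¹ * g := by
          rw [← h, mul_inv_rev, gen_inv]
          group
        rw [h6] at h5
        have := ih.2
        omega
      · have h := gen'_mul_eLine G s t m
        have h2 : (-1 - (m : ℤ)) = -((m + 1 : ℕ) : ℤ) := by push_cast; ring
        rw [h2] at h
        have h0 : nn G (eLine G s t m) (gen G t) = 0 := by
          rw [← nn_ne_one, ne_eq, nn_gen_iff, h, rlen_eLine G hn hst, rlen_eLine G hn hst]
          omega
        have h3 : nn G ((eLine G s t m)⁻¹ * g)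
            ((eLine G s t m)⁻¹ * gen G t * eLine G s t m) = 1 := by
          have h4 := nn_mul G (eLine G s t m) ((eLine G s t m)⁻¹ * g) (gen G t)
          rw [mul_inv_cancel_left, ht', h0, zero_add] at h4
          exact h4.symm
        have h5 := len_lt_of_nn G h3
        have h6 : (eLine G s t m)⁻¹ * gen G t * eLine G s t m * ((eLine G s t m)⁻¹ * g) =
            (eLine G s t (-((m + 1 : ℕ) : ℤ)))⁻¹ * g := by
          rw [← h, mul_inv_rev, gen_inv]
          group
        rw [h6] at h5
        have := ih.1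
        omega
  have := (key (rlen G g + 1)).1
  omega

/-! ### Additivity -/

lemma nn_mul_gen (g : RW G) (s : S) (t : RW G) :
    nn G (g * gen G s) t = nn G g t + (if g⁻¹ * t * g = gen G s then 1 else 0) := by
  rw [nn_mul, nn_gen]

/-- a non right descent: the new wall is not crossed before -/
lemma nn_new {x : RW G} {a : S} (h : ¬ rlen G (x * gen G a) < rlen G x) :
    nn G x (x * gen G a * x⁻¹) = 0 := by
  rw [← nn_inv, ← nn_ne_one, ne_eq, nn_gen_iff, ← rdesc_iff]
  exact h

lemma nn_mono {x : RW G} {a : S} (h : ¬ rlen G (x * gen G a) < rlen G x) {t : RW G}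
    (ht : nn G x t = 1) : nn G (x * gen G a) t = 1 := by
  rw [nn_mul_gen, ht, if_neg, add_zero]
  intro h2
  have h3 : t = x * gen G a * x⁻¹ := by rw [← h2]; group
  rw [h3, nn_new G h] at ht
  exact absurd ht (by decide)

theorem add_len (x y : RW G) (h : ∀ r, ¬ (nn G x r = 1 ∧ nn G y r = 1)) :
    rlen G (x⁻¹ * y) = rlen G x + rlen G y := by
  induction hk : rlen G x using Nat.strong_induction_on generalizing x with
  | _ k ih =>
    by_cases hx : x = 1
    · subst hx
      rw [rlen_one] at hk
      simp [← hk]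
    obtain ⟨a, ha⟩ := exists_rdesc G hx
    have ha1 : rlen G (x * gen G a) + 1 = rlen G x := by
      rcases rlen_mul_gen G x a with h | h <;> omega
    set x' := x * gen G a with hx'
    have hxx : x = x' * gen G a := by rw [hx', mul_gen_cancel]
    have hna : ¬ rlen G (x' * gen G a) < rlen G x' := by rw [← hxx]; omega
    have h1 := ih (rlen G x') (by omega) x' (by
      intro r hr
      refine h r ⟨?_, hr.2⟩
      rw [hxx]
      exact nn_mono G hna hr.1) rfl
    have h2 : nn G (x'⁻¹ * y) (gen G a) = 0 := by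
      rw [nn_mul, inv_inv]
      have h3 : nn G x'⁻¹ (gen G a) = 0 := by rw [nn_inv]; exact nn_new G hna
      rw [h3, zero_add, ← nn_ne_one]
      intro h4
      refine h _ ⟨?_, h4⟩
      rw [hxx, nn_mul_gen, nn_new G hna, zero_add, if_pos (by group)]
    have h5 : ¬ rlen G (gen G a * (x'⁻¹ * y)) < rlen G (x'⁻¹ * y) := by
      rw [← nn_gen_iff, h2]; decide
    have h6 : x⁻¹ * y = gen G a * (x'⁻¹ * y) := by
      rw [hxx, mul_inv_rev, gen_inv, mul_assoc]
    rw [h6]
    rcases rlen_gen_mul G a (x'⁻¹ * y) with h7 | h7 <;> omega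

omit [DecidableEq S] in
lemma conj_eq {W : Type*} [Group W] {A r s : W} (h : A⁻¹ * r * A = s) : r = A * s * A⁻¹ := by
  subst h; group

theorem common_desc (x y r : RW G) (hx : nn G x r = 1) (hy : nn G y r = 1) :
    ∃ s, nn G x (gen G s) = 1 ∧ nn G y (gen G s) = 1 := by
  induction hk : rlen G x using Nat.strong_induction_on generalizing x r with
  | _ k ih =>
    by_cases hA : ∃ a, rlen G (x * gen G a) < rlen G x ∧ nn G (x * gen G a) r = 1
    · obtain ⟨a, ha, har⟩ := hA
      obtain ⟨s, hs1, hs2⟩ := ih _ (by omega) (x * gen G a) r har hy rfl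
      refine ⟨s, ?_, hs2⟩
      have h := nn_mono G (x := x * gen G a) (a := a) (by rw [mul_gen_cancel]; omega) hs1
      rwa [mul_gen_cancel] at h
    push Not at hA
    have key : ∀ a, rlen G (x * gen G a) < rlen G x → r = x * gen G a * x⁻¹ := by
      intro a ha
      have h0 := (nn_ne_one G).mp (hA a ha)
      have h1 : nn G (x * gen G a * gen G a) r = 1 := by rw [mul_gen_cancel]; exact hx
      rw [nn_mul_gen, h0, zero_add] at h1
      split_ifs at h1 with h2
      · have h3 : r = x * gen G a * gen G a * (x * gen G a)⁻¹ := conj_eq h2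
        rw [h3, mul_gen_cancel, mul_inv_rev, gen_inv, mul_assoc]
      · exact absurd h1 (by decide)
    have hx1 : x ≠ 1 := by
      rintro rfl
      rw [nn_one] at hx
      exact absurd hx (by decide)
    obtain ⟨a, ha⟩ := exists_rdesc G hx1
    have hra := key a ha
    have ha1 : rlen G (x * gen G a) + 1 = rlen G x := by
      rcases rlen_mul_gen G x a with h | h <;> omega
    set x' := x * gen G a with hx'
    have hxx : x = x' * gen G a := by rw [hx', mul_gen_cancel]
    have hna : ¬ rlen G (x' * gen G a) < rlen G x' := by rw [← hxx]; omega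
    by_cases hB : ∃ r', nn G x' r' = 1 ∧ nn G y r' = 1
    · obtain ⟨r', hr1, hr2⟩ := hB
      obtain ⟨s, hs1, hs2⟩ := ih _ (by omega) x' r' hr1 hr2 rfl
      refine ⟨s, ?_, hs2⟩
      rw [hxx]
      exact nn_mono G hna hs1
    have hadd := add_len G x' y (fun r' hr' => hB ⟨r', hr'⟩)
    by_cases hx2 : x' = 1
    · rw [hx2, one_mul] at hxx
      rw [hxx, gen_inv, hx2, one_mul] at hra
      rw [hra] at hx hy
      exact ⟨a, hx, hy⟩
    obtain ⟨a', ha'⟩ := exists_rdesc G hx2
    have hne : a ≠ a' := by
      rintro rfl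
      exact hna ha'
    have hd1 : rlen G (gen G a * (x'⁻¹ * y)) < rlen G (x'⁻¹ * y) := by
      rw [← nn_gen_iff, nn_mul, inv_inv]
      have h3 : nn G x'⁻¹ (gen G a) = 0 := by rw [nn_inv]; exact nn_new G hna
      have h4 : x' * gen G a * x'⁻¹ = r := by
        rw [hra, hx', mul_inv_rev, gen_inv, mul_gen_cancel, mul_assoc]
      rw [h3, zero_add, h4, hy]
    have hd2 : rlen G (gen G a' * (x'⁻¹ * y)) < rlen G (x'⁻¹ * y) := by
      rw [hadd, ← mul_assoc]
      have h3 := rlen_mul_le G (gen G a' * x'⁻¹) y
      have h4 := (rdesc_iff G x' a').mp ha'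
      rw [rlen_inv] at h4
      omega
    have hadj := desc_comm G _ a a' hne hd1 hd2
    have hd3 : rlen G (x * gen G a') < rlen G x := by
      have h5 : x * gen G a' = x' * gen G a' * gen G a := by
        rw [hxx, mul_assoc, gen_comm G hadj, ← mul_assoc]
      rw [h5]
      have h6 := rlen_mul_gen_le G (x' * gen G a') a
      rcases rlen_mul_gen G x' a' with h | h <;> omega
    have h7 := key a' hd3
    rw [hra] at h7
    have h8 : gen G a = gen G a' := mul_left_cancel (mul_right_cancel h7)
    exact absurd (gen_inj G h8) hne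

theorem disj (x y : RW G)
    (h : ∀ s, ¬ (rlen G (gen G s * x) < rlen G x ∧ rlen G (gen G s * y) < rlen G y)) :
    rlen G (x⁻¹ * y) = rlen G x + rlen G y := by
  apply add_len
  intro r hr
  obtain ⟨s, hs1, hs2⟩ := common_desc G x y r hr.1 hr.2
  exact h s ⟨(nn_gen_iff G).mp hs1, (nn_gen_iff G).mp hs2⟩

/-- The descent facts of right-angled Coxeter groups. -/
theorem rFacts : RFacts G := ⟨desc_comm G, disj G⟩

end

end Pool.Agent.helper82.LC
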