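import Mathlib
import Pool.Agent.helper82.LC.Desc

/-!
# Right-angled Coxeter groups: the page (gates, far, thin, conv)
-/

set_option autoImplicit false

namespace Pool.Agent.helper82.LC

open Pool.Agent.helper99.LC

open scoped Classical

section

variable {S : Type} [DecidableEq S] (G : SimpleGraph S) [DecidableRel G.Adj]

/-! ### Initial parts, greatest common initial parts -/

/-- a descent of an initial part is a descent -/
lemma desc_init {a g : RW G} (h : rlen G a + rlen G (a⁻¹ * g) = rlen G g) {s : S}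
    (hs : rlen G (gen G s * a) < rlen G a) : rlen G (gen G s * g) < rlen G g := by
  have h1 : gen G s * g = (gen G s * a) * (a⁻¹ * g) := by group
  have h2 := rlen_mul_le G (gen G s * a) (a⁻¹ * g)
  rw [← h1] at h2
  omega

lemma exists_gcd (x z : RW G) : ∃ a, rlen G a + rlen G (a⁻¹ * x) = rlen G x ∧
    rlen G a + rlen G (a⁻¹ * z) = rlen G z ∧
    rlen G (x⁻¹ * a) + rlen G (a⁻¹ * z) = rlen G (x⁻¹ * z) := by
  induction hk : rlen G x using Nat.strong_induction_on generalizing x z with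
  | _ k ih =>
    by_cases hc : ∃ s, rlen G (gen G s * x) < rlen G x ∧ rlen G (gen G s * z) < rlen G z
    · obtain ⟨s, hsx, hsz⟩ := hc
      obtain ⟨a, h1, h2, h3⟩ := ih _ (by omega) (gen G s * x) (gen G s * z) rfl
      refine ⟨gen G s * a, ?_, ?_, ?_⟩
      · have e1 : (gen G s * a)⁻¹ * x = a⁻¹ * (gen G s * x) := by
          rw [mul_inv_rev, gen_inv, mul_assoc]
        rw [e1]
        have h4 := rlen_gen_mul_le G s a
        have h5 := rlen_mul_le G (gen G s * a) (a⁻¹ * (gen G s * x))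
        have e2 : (gen G s * a) * (a⁻¹ * (gen G s * x)) = x := by
          rw [mul_assoc, mul_inv_cancel_left, gen_mul_cancel]
        rw [e2] at h5
        omega
      · have e1 : (gen G s * a)⁻¹ * z = a⁻¹ * (gen G s * z) := by
          rw [mul_inv_rev, gen_inv, mul_assoc]
        rw [e1]
        have h4 := rlen_gen_mul_le G s a
        have h5 := rlen_mul_le G (gen G s * a) (a⁻¹ * (gen G s * z))
        have e2 : (gen G s * a) * (a⁻¹ * (gen G s * z)) = z := by
          rw [mul_assoc, mul_inv_cancel_left, gen_mul_cancel]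
        rw [e2] at h5
        omega
      · have e1 : (gen G s * a)⁻¹ * z = a⁻¹ * (gen G s * z) := by
          rw [mul_inv_rev, gen_inv, mul_assoc]
        have e2 : x⁻¹ * (gen G s * a) = (gen G s * x)⁻¹ * a := by
          rw [mul_inv_rev, gen_inv, mul_assoc]
        have e3 : x⁻¹ * z = (gen G s * x)⁻¹ * (gen G s * z) := by
          rw [mul_inv_rev, gen_inv, mul_assoc, gen_mul_cancel]
        rw [e1, e2, e3]
        exact h3
    · push Not at hc
      refine ⟨1, ?_, ?_, ?_⟩
      · simp [rlen_one, hk]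
      · simp [rlen_one]
      · rw [mul_one, inv_one, one_mul, rlen_inv]
        refine (disj G x z ?_).symm
        intro s hs
        exact absurd hs.2 (not_lt.mpr (hc s hs.1))

/-! ### A descent of `b h` that is not a descent of `b` -/

lemma desc_pass (ω : List S) (h : RW G) (s : S)
    (hlen : rlen G ((raSys G).wordProd ω * h) = ω.length + rlen G h)
    (hs : rlen G (gen G s * ((raSys G).wordProd ω * h)) < rlen G ((raSys G).wordProd ω * h))
    (hb : ¬ rlen G (gen G s * (raSys G).wordProd ω) < rlen G ((raSys G).wordProd ω)) :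
    (∀ u ∈ ω, G.Adj s u) ∧ rlen G (gen G s * h) < rlen G h ∧
      gen G s * (raSys G).wordProd ω = (raSys G).wordProd ω * gen G s := by
  induction ω with
  | nil =>
    rw [(raSys G).wordProd_nil, one_mul] at hs
    refine ⟨by simp, hs, by simp⟩
  | cons u ω ih =>
    have e0 : (raSys G).wordProd (u :: ω) = gen G u * (raSys G).wordProd ω :=
      (raSys G).wordProd_cons u ω
    rw [e0] at hlen hs hb ⊢
    have e1 : gen G u * (raSys G).wordProd ω * h = gen G u * ((raSys G).wordProd ω * h) :=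
      mul_assoc _ _ _
    have l0 : rlen G ((raSys G).wordProd ω) ≤ ω.length := (raSys G).length_wordProd_le ω
    have l1 := rlen_mul_le G ((raSys G).wordProd ω) h
    have l2 := rlen_gen_mul_le G u ((raSys G).wordProd ω * h)
    rw [e1] at hlen hs
    rw [List.length_cons] at hlen
    have hlen' : rlen G ((raSys G).wordProd ω * h) = ω.length + rlen G h := by omega
    have hu : rlen G (gen G u * (gen G u * ((raSys G).wordProd ω * h))) <
        rlen G (gen G u * ((raSys G).wordProd ω * h)) := by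
      rw [gen_mul_cancel]; omega
    have hne : s ≠ u := by
      rintro rfl
      rw [gen_mul_cancel] at hb
      have l3 := rlen_mul_le G (gen G s * (raSys G).wordProd ω) h
      rw [e1] at l3
      omega
    have hadj := desc_comm G _ s u hne hs hu
    have hc := gen_comm G hadj
    have c1 : ¬ gen G s = gen G u := fun h => hne (gen_inj G h)
    have c2 : gen G u * gen G s * gen G u = gen G s := by
      rw [← hc, mul_gen_cancel]
    have hs' : rlen G (gen G s * ((raSys G).wordProd ω * h)) <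
        rlen G ((raSys G).wordProd ω * h) := by
      rw [← nn_gen_iff] at hs ⊢
      rw [nn_gen_mul, if_neg c1, zero_add, c2] at hs
      exact hs
    have hb' : ¬ rlen G (gen G s * (raSys G).wordProd ω) < rlen G ((raSys G).wordProd ω) := by
      rw [← nn_gen_iff] at hb ⊢
      rw [nn_gen_mul, if_neg c1, zero_add, c2] at hb
      exact hb
    obtain ⟨i1, i2, i3⟩ := ih hlen' hs' hb'
    refine ⟨?_, i2, ?_⟩
    · intro w hw
      rcases List.mem_cons.mp hw with rfl | hw
      · exact hadj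
      · exact i1 w hw
    · rw [← mul_assoc, hc, mul_assoc, i3, mul_assoc]

lemma letters_adj (ω₁ ω₂ : List S) (g h₁ h₂ : RW G)
    (e₁ : g = (raSys G).wordProd ω₁ * h₁) (e₂ : g = (raSys G).wordProd ω₂ * h₂)
    (l₁ : rlen G g = ω₁.length + rlen G h₁) (l₂ : rlen G g = ω₂.length + rlen G h₂)
    (hd : ∀ s, ¬ (rlen G (gen G s * (raSys G).wordProd ω₁) < rlen G ((raSys G).wordProd ω₁) ∧
      rlen G (gen G s * (raSys G).wordProd ω₂) < rlen G ((raSys G).wordProd ω₂))) :
    ∀ a ∈ ω₁, ∀ b ∈ ω₂, G.Adj a b := by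
  induction ω₁ generalizing g h₂ with
  | nil => simp
  | cons s ω₁ ih =>
    have e0 : (raSys G).wordProd (s :: ω₁) = gen G s * (raSys G).wordProd ω₁ :=
      (raSys G).wordProd_cons s ω₁
    rw [e0] at e₁ hd
    rw [List.length_cons] at l₁
    have k0 : rlen G ((raSys G).wordProd ω₁) ≤ ω₁.length := (raSys G).length_wordProd_le ω₁
    have k0' : rlen G ((raSys G).wordProd ω₂) ≤ ω₂.length := (raSys G).length_wordProd_le ω₂
    have k1 := rlen_mul_le G (gen G s * (raSys G).wordProd ω₁) h₁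
    rw [← e₁] at k1
    have hs1 : rlen G (gen G s * (gen G s * (raSys G).wordProd ω₁)) <
        rlen G (gen G s * (raSys G).wordProd ω₁) := by
      rw [gen_mul_cancel]; omega
    have e₁' : gen G s * g = (raSys G).wordProd ω₁ * h₁ := by
      rw [e₁, mul_assoc, gen_mul_cancel]
    have k2 := rlen_mul_le G ((raSys G).wordProd ω₁) h₁
    rw [← e₁'] at k2
    have hsg : rlen G (gen G s * g) < rlen G g := by omega
    have hsg' : rlen G (gen G s * g) + 1 = rlen G g := by
      rcases rlen_gen_mul G s g with h | h <;> omega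
    have hs2 : ¬ rlen G (gen G s * (raSys G).wordProd ω₂) < rlen G ((raSys G).wordProd ω₂) :=
      fun h => hd s ⟨hs1, h⟩
    obtain ⟨i1, i2, i3⟩ := desc_pass G ω₂ h₂ s (by rw [← e₂]; exact l₂) (by rw [← e₂]; exact hsg)
      hs2
    have hs2' : rlen G (gen G s * h₂) + 1 = rlen G h₂ := by
      rcases rlen_gen_mul G s h₂ with h | h <;> omega
    have e₂' : gen G s * g = (raSys G).wordProd ω₂ * (gen G s * h₂) := by
      rw [e₂, ← mul_assoc, i3, mul_assoc]
    have ih' := ih (gen G s * g) (gen G s * h₂) e₁' e₂' (by omega) (by omega) (by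
      intro u hu
      have hus : s ≠ u := by
        rintro rfl
        exact hs2 hu.2
      have hug : rlen G (gen G u * g) < rlen G g := by
        have h3 := rlen_mul_le G (gen G u * (raSys G).wordProd ω₂) h₂
        rw [mul_assoc, ← e₂] at h3
        omega
      have hadj := desc_comm G g s u hus hsg hug
      refine hd u ⟨?_, hu.2⟩
      have hu1 := hu.1
      rw [← nn_gen_iff] at hu1 ⊢
      rw [nn_gen_mul, if_neg (fun h => hus (gen_inj G h).symm), zero_add, gen_comm G hadj,
        mul_gen_cancel, hu1])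
    intro a ha b hb
    rcases List.mem_cons.mp ha with rfl | ha
    · exact i1 b hb
    · exact ih' a ha b hb

/-! ### Reduced words in pairwise adjacent letters -/

lemma clique_desc (ω : List S) (hp : ∀ a ∈ ω, ∀ b ∈ ω, a ≠ b → G.Adj a b)
    (hr : rlen G ((raSys G).wordProd ω) = ω.length) (a : S) (ha : a ∈ ω) :
    nn G ((raSys G).wordProd ω) (gen G a) = 1 := by
  induction ω with
  | nil => simp at ha
  | cons b ω ih =>
    have e0 : (raSys G).wordProd (b :: ω) = gen G b * (raSys G).wordProd ω :=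
      (raSys G).wordProd_cons b ω
    have k0 : rlen G ((raSys G).wordProd ω) ≤ ω.length := (raSys G).length_wordProd_le ω
    rw [e0, List.length_cons] at hr
    have k1 := rlen_gen_mul_le G b ((raSys G).wordProd ω)
    rw [e0]
    by_cases hab : a = b
    · subst hab
      rw [nn_gen_iff, gen_mul_cancel]
      omega
    · have ha' : a ∈ ω := by
        rcases List.mem_cons.mp ha with h | h
        · exact absurd h hab
        · exact h
      have h1 := ih (fun a ha b hb => hp a (List.mem_cons_of_mem _ ha) b (List.mem_cons_of_mem _ hb))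
        (by omega) ha'
      have hadj := hp a ha b List.mem_cons_self hab
      rw [nn_gen_mul, if_neg (fun h => hab (gen_inj G h)), zero_add, ← gen_comm G hadj,
        mul_gen_cancel, h1]

lemma clique_nodup (ω : List S) (hp : ∀ a ∈ ω, ∀ b ∈ ω, a ≠ b → G.Adj a b)
    (hr : rlen G ((raSys G).wordProd ω) = ω.length) : ω.Nodup := by
  induction ω with
  | nil => simp
  | cons b ω ih =>
    have e0 : (raSys G).wordProd (b :: ω) = gen G b * (raSys G).wordProd ω :=
      (raSys G).wordProd_cons b ω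
    have k0 : rlen G ((raSys G).wordProd ω) ≤ ω.length := (raSys G).length_wordProd_le ω
    rw [e0, List.length_cons] at hr
    have k1 := rlen_gen_mul_le G b ((raSys G).wordProd ω)
    have hp' : ∀ a ∈ ω, ∀ b ∈ ω, a ≠ b → G.Adj a b := fun a ha b hb =>
      hp a (List.mem_cons_of_mem _ ha) b (List.mem_cons_of_mem _ hb)
    have hr' : rlen G ((raSys G).wordProd ω) = ω.length := by omega
    rw [List.nodup_cons]
    refine ⟨?_, ih hp' hr'⟩
    intro hb
    have h1 := clique_desc G ω hp' hr' b hb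
    rw [nn_gen_iff] at h1
    omega

/-- exists a reduced word -/
lemma exists_word (a : RW G) : ∃ ω : List S, (raSys G).wordProd ω = a ∧ ω.length = rlen G a := by
  obtain ⟨ω, hω, rfl⟩ := (raSys G).exists_isReduced a
  exact ⟨ω, rfl, hω.symm⟩

variable {G}

/-- two initial parts without common descents: one of them is short -/
lemma short_init (hsq : ∀ x y a b, x ≠ y → ¬ G.Adj x y → G.Adj x a → G.Adj x b → G.Adj y a →
      G.Adj y b → a ≠ b → G.Adj a b) (κ : ℕ)
    (hclq : ∀ σ : Finset S, (∀ a ∈ σ, ∀ b ∈ σ, a ≠ b → G.Adj a b) → σ.card ≤ κ)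
    (a b g : RW G) (ha : rlen G a + rlen G (a⁻¹ * g) = rlen G g)
    (hb : rlen G b + rlen G (b⁻¹ * g) = rlen G g)
    (hd : ∀ s, ¬ (rlen G (gen G s * a) < rlen G a ∧ rlen G (gen G s * b) < rlen G b)) :
    rlen G a ≤ κ ∨ rlen G b ≤ κ := by
  obtain ⟨ω₁, rfl, h1⟩ := exists_word G a
  obtain ⟨ω₂, rfl, h2⟩ := exists_word G b
  have hadj := letters_adj G ω₁ ω₂ g _ _ (by rw [mul_inv_cancel_left]) (by rw [mul_inv_cancel_left])
    (by rw [h1]; exact ha.symm) (by rw [h2]; exact hb.symm) hd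
  have key : ∀ ω : List S, ω.length = rlen G ((raSys G).wordProd ω) →
      rlen G ((raSys G).wordProd ω) ≤ κ ∨ ∃ p ∈ ω, ∃ q ∈ ω, p ≠ q ∧ ¬ G.Adj p q := by
    intro ω hω
    by_cases hc : ∃ p ∈ ω, ∃ q ∈ ω, p ≠ q ∧ ¬ G.Adj p q
    · exact Or.inr hc
    · push Not at hc
      have hnd := clique_nodup G ω hc hω.symm
      left
      have h3 := hclq ω.toFinset (by
        intro p hp q hq
        exact hc p (List.mem_toFinset.mp hp) q (List.mem_toFinset.mp hq))
      rw [List.toFinset_card_of_nodup hnd, hω] at h3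
      exact h3
  rcases key ω₁ h1 with h | ⟨p, hp, q, hq, hpq, hpq'⟩
  · exact Or.inl h
  rcases key ω₂ h2 with h | ⟨c, hc, d, hdd, hcd, hcd'⟩
  · exact Or.inr h
  exact absurd (hsq p q c d hpq hpq' (hadj p hp c hc) (hadj p hp d hdd) (hadj q hq c hc)
    (hadj q hq d hdd) hcd) hcd'

lemma thin_RW (hsq : ∀ x y a b, x ≠ y → ¬ G.Adj x y → G.Adj x a → G.Adj x b → G.Adj y a →
      G.Adj y b → a ≠ b → G.Adj a b) (κ : ℕ)
    (hclq : ∀ σ : Finset S, (∀ a ∈ σ, ∀ b ∈ σ, a ≠ b → G.Adj a b) → σ.card ≤ κ)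
    (x y z w : RW G) (h : rlen G (x⁻¹ * w) + rlen G (w⁻¹ * y) = rlen G (x⁻¹ * y)) :
    ∃ w', rlen G (w⁻¹ * w') ≤ κ ∧
      (rlen G (x⁻¹ * w') + rlen G (w'⁻¹ * z) = rlen G (x⁻¹ * z) ∨
      rlen G (z⁻¹ * w') + rlen G (w'⁻¹ * y) = rlen G (z⁻¹ * y)) := by
  obtain ⟨a, a1, a2, a3⟩ := exists_gcd G (w⁻¹ * x) (w⁻¹ * z)
  obtain ⟨b, b1, b2, b3⟩ := exists_gcd G (w⁻¹ * y) (w⁻¹ * z)
  have e1 : x⁻¹ * y = (w⁻¹ * x)⁻¹ * (w⁻¹ * y) := by group
  have e2 : rlen G (x⁻¹ * w) = rlen G (w⁻¹ * x) := by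
    rw [← rlen_inv G (x⁻¹ * w)]; congr 1; group
  rw [e1, e2] at h
  have hd : ∀ s, ¬ (rlen G (gen G s * a) < rlen G a ∧ rlen G (gen G s * b) < rlen G b) := by
    intro s hs
    have hx := desc_init G a1 hs.1
    have hy := desc_init G b1 hs.2
    have h3 := rlen_mul_le G (gen G s * (w⁻¹ * x))⁻¹ (gen G s * (w⁻¹ * y))
    rw [rlen_inv] at h3
    have e3 : (gen G s * (w⁻¹ * x))⁻¹ * (gen G s * (w⁻¹ * y)) = (w⁻¹ * x)⁻¹ * (w⁻¹ * y) := by
      rw [mul_inv_rev (gen G s), gen_inv, mul_assoc, gen_mul_cancel]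
    rw [e3] at h3
    omega
  rcases short_init hsq κ hclq a b (w⁻¹ * z) a2 b2 hd with hs | hs
  · refine ⟨w * a, by simpa using hs, Or.inl ?_⟩
    have f1 : x⁻¹ * (w * a) = (w⁻¹ * x)⁻¹ * a := by group
    have f2 : (w * a)⁻¹ * z = a⁻¹ * (w⁻¹ * z) := by group
    have f3 : x⁻¹ * z = (w⁻¹ * x)⁻¹ * (w⁻¹ * z) := by group
    rw [f1, f2, f3, a3]
  · refine ⟨w * b, by simpa using hs, Or.inr ?_⟩
    have f1 : z⁻¹ * (w * b) = (b⁻¹ * (w⁻¹ * z))⁻¹ := by group
    have f2 : (w * b)⁻¹ * y = ((w⁻¹ * y)⁻¹ * b)⁻¹ := by group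
    have f3 : z⁻¹ * y = ((w⁻¹ * y)⁻¹ * (w⁻¹ * z))⁻¹ := by group
    rw [f1, f2, f3, rlen_inv, rlen_inv, rlen_inv, add_comm, b3]

/-! ### Gates -/

variable {v v' : S}

lemma nn_line {s : S} (h1 : s ≠ v) (h2 : s ≠ v') (n : ℕ) (r : RW G) (hr : chi G s r = -1) :
    nn G (eLine G v v' n) r = 0 ∧ nn G (eLine G v v' (-n)) r = 0 := by
  have hcv : chi G s (gen G v) = 1 := by rw [chi_gen, if_neg (Ne.symm h1)]
  have hcv' : chi G s (gen G v') = 1 := by rw [chi_gen, if_neg (Ne.symm h2)]
  induction n generalizing r with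
  | zero => simp [eLine_zero, nn_one]
  | succ n ih =>
    constructor
    · have h := gen_mul_eLine G v v' (-n)
      have h2 : (1 - -(n : ℤ)) = ((n + 1 : ℕ) : ℤ) := by push_cast; ring
      rw [h2] at h
      rw [← h, nn_gen_mul, if_neg, zero_add]
      · exact (ih _ (by rw [map_mul, map_mul, hcv, hr]; simp)).2
      · rintro rfl
        rw [hcv] at hr
        exact absurd hr (by decide)
    · have h := gen'_mul_eLine G v v' n
      have h2 : (-1 - (n : ℤ)) = -((n + 1 : ℕ) : ℤ) := by push_cast; ring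
      rw [h2] at h
      rw [← h, nn_gen_mul, if_neg, zero_add]
      · exact (ih _ (by rw [map_mul, map_mul, hcv', hr]; simp)).1
      · rintro rfl
        rw [hcv'] at hr
        exact absurd hr (by decide)

/-- the descents of the points of the line are `v`, `v'` -/
lemma desc_line {s : S} (h1 : s ≠ v) (h2 : s ≠ v') (n : ℤ) :
    ¬ rlen G (gen G s * eLine G v v' n) < rlen G (eLine G v v' n) := by
  rw [← nn_gen_iff, ← ne_eq, nn_ne_one]
  have hr : chi G s (gen G s) = -1 := by rw [chi_gen, if_pos rfl]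
  have h := nn_line (G := G) h1 h2 n.natAbs (gen G s) hr
  rcases Int.natAbs_eq n with h3 | h3
  · rw [h3]; exact h.1
  · rw [h3]; exact h.2

lemma rlen_line_mul (hn : ¬ G.Adj v v') (hv : v ≠ v') (x : RW G)
    (h1 : ¬ rlen G (gen G v * x) < rlen G x) (h2 : ¬ rlen G (gen G v' * x) < rlen G x) (n : ℤ) :
    rlen G (eLine G v v' n * x) = n.natAbs + rlen G x := by
  have h := disj G (eLine G v v' n)⁻¹ x (by
    intro s hs
    have hs1 : s ≠ v := by rintro rfl; exact h1 hs.2
    have hs2 : s ≠ v' := by rintro rfl; exact h2 hs.2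
    rw [eLine_inv] at hs
    exact desc_line hs1 hs2 _ hs.1)
  rw [inv_inv, rlen_inv, rlen_eLine G hn hv] at h
  exact h

lemma exists_gate (v v' : S) (x : RW G) : ∃ (k : ℤ) (x' : RW G), x = eLine G v v' k * x' ∧
    ¬ rlen G (gen G v * x') < rlen G x' ∧ ¬ rlen G (gen G v' * x') < rlen G x' := by
  induction hk : rlen G x using Nat.strong_induction_on generalizing x with
  | _ m ih =>
    by_cases h1 : rlen G (gen G v * x) < rlen G x
    · obtain ⟨k, x', e, h2, h3⟩ := ih _ (by omega) (gen G v * x) rfl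
      refine ⟨1 - k, x', ?_, h2, h3⟩
      rw [← gen_mul_eLine, mul_assoc, ← e, gen_mul_cancel]
    by_cases h2 : rlen G (gen G v' * x) < rlen G x
    · obtain ⟨k, x', e, h2, h3⟩ := ih _ (by omega) (gen G v' * x) rfl
      refine ⟨-1 - k, x', ?_, h2, h3⟩
      rw [← gen'_mul_eLine, mul_assoc, ← e, gen_mul_cancel]
    exact ⟨0, x, by simp [eLine_zero], h1, h2⟩

/-- the gate function of the line -/
noncomputable def gam (v v' : S) (x : RW G) : ℤ := (exists_gate v v' x).choose

lemma gam_spec (v v' : S) (x : RW G) : ∃ x' : RW G, x = eLine G v v' (gam v v' x) * x' ∧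
    ¬ rlen G (gen G v * x') < rlen G x' ∧ ¬ rlen G (gen G v' * x') < rlen G x' :=
  (exists_gate v v' x).choose_spec

lemma desc_far (hn : ¬ G.Adj v v') (hv : v ≠ v')
    (hcn : ∀ s, ¬ (G.Adj s v ∧ G.Adj s v')) {x : RW G}
    (h1 : ¬ rlen G (gen G v * x) < rlen G x) (h2 : ¬ rlen G (gen G v' * x) < rlen G x) {j : ℤ}
    (hj : 2 ≤ j.natAbs) {s : S} (hs1 : s ≠ v) (hs2 : s ≠ v') :
    ¬ rlen G (gen G s * (eLine G v v' j * x)) < rlen G (eLine G v v' j * x) := by
  intro hs
  have L := rlen_line_mul hn hv x h1 h2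
  rcases Int.natAbs_eq j with h3 | h3
  · -- first letter `v`
    have hdv : rlen G (gen G v * (eLine G v v' j * x)) < rlen G (eLine G v v' j * x) := by
      rw [← mul_assoc, gen_mul_eLine, L, L]; omega
    have a1 := desc_comm G _ s v hs1 hs hdv
    have hs' : rlen G (gen G s * (gen G v * (eLine G v v' j * x))) <
        rlen G (gen G v * (eLine G v v' j * x)) := by
      rw [← nn_gen_iff] at hs ⊢
      rw [nn_gen_mul, if_neg (fun h => hs1 (gen_inj G h)), zero_add, ← gen_comm G a1,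
        mul_gen_cancel, hs]
    have hdv' : rlen G (gen G v' * (gen G v * (eLine G v v' j * x))) <
        rlen G (gen G v * (eLine G v v' j * x)) := by
      rw [← mul_assoc (gen G v), gen_mul_eLine, ← mul_assoc, gen'_mul_eLine, L, L]; omega
    have a2 := desc_comm G _ s v' hs2 hs' hdv'
    exact hcn s ⟨a1, a2⟩
  · have hdv : rlen G (gen G v' * (eLine G v v' j * x)) < rlen G (eLine G v v' j * x) := by
      rw [← mul_assoc, gen'_mul_eLine, L, L]; omega
    have a1 := desc_comm G _ s v' hs2 hs hdv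
    have hs' : rlen G (gen G s * (gen G v' * (eLine G v v' j * x))) <
        rlen G (gen G v' * (eLine G v v' j * x)) := by
      rw [← nn_gen_iff] at hs ⊢
      rw [nn_gen_mul, if_neg (fun h => hs2 (gen_inj G h)), zero_add, ← gen_comm G a1,
        mul_gen_cancel, hs]
    have hdv' : rlen G (gen G v * (gen G v' * (eLine G v v' j * x))) <
        rlen G (gen G v' * (eLine G v v' j * x)) := by
      rw [← mul_assoc (gen G v'), gen'_mul_eLine, ← mul_assoc, gen_mul_eLine, L, L]; omega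
    have a2 := desc_comm G _ s v hs1 hs' hdv'
    exact hcn s ⟨a2, a1⟩

lemma natAbs_ite (m n : ℤ) : (if m % 2 = 0 then n - m else m - n).natAbs = (m - n).natAbs := by
  split_ifs <;> omega

lemma far_RW (hn : ¬ G.Adj v v') (hv : v ≠ v')
    (hcn : ∀ s, ¬ (G.Adj s v ∧ G.Adj s v')) (x y : RW G)
    (h : 2 ≤ (gam v v' x - gam v v' y).natAbs) :
    rlen G (x⁻¹ * y) = rlen G (x⁻¹ * eLine G v v' (gam v v' x)) +
      (gam v v' x - gam v v' y).natAbs + rlen G ((eLine G v v' (gam v v' y))⁻¹ * y) := by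
  obtain ⟨x', ex, hx1, hx2⟩ := gam_spec v v' x
  obtain ⟨y', ey, hy1, hy2⟩ := gam_spec v v' y
  set k := gam v v' x
  set l := gam v v' y
  have e1 : (eLine G v v' l)⁻¹ * y = y' := by rw [ey]; group
  have e2 : x⁻¹ * eLine G v v' k = x'⁻¹ := by rw [ex]; group
  have e3 : x⁻¹ * y = x'⁻¹ * (((eLine G v v' k)⁻¹ * eLine G v v' l) * y') := by
    rw [ex, ey]; group
  have hj := natAbs_ite k l
  rw [e1, e2, e3, eLine_inv_mul, rlen_inv]
  have h4 := disj G x' (eLine G v v' (if k % 2 = 0 then l - k else k - l) * y') (by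
    intro s hs
    have hs1 : s ≠ v := by rintro rfl; exact hx1 hs.1
    have hs2 : s ≠ v' := by rintro rfl; exact hx2 hs.1
    exact desc_far hn hv hcn hy1 hy2 (by rw [hj]; exact h) hs1 hs2 hs.2)
  rw [h4, rlen_line_mul hn hv y' hy1 hy2, hj]
  ring

lemma gate_RW (hn : ¬ G.Adj v v') (hv : v ≠ v') (x : RW G) (n : ℤ) :
    rlen G (x⁻¹ * eLine G v v' n) = rlen G (x⁻¹ * eLine G v v' (gam v v' x)) +
      (gam v v' x - n).natAbs := by
  obtain ⟨x', ex, hx1, hx2⟩ := gam_spec v v' x
  set k := gam v v' x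
  have e2 : x⁻¹ * eLine G v v' k = x'⁻¹ := by rw [ex]; group
  have e3 : (x⁻¹ * eLine G v v' n)⁻¹ = ((eLine G v v' n)⁻¹ * eLine G v v' k) * x' := by
    rw [ex]; group
  rw [e2, ← rlen_inv G (x⁻¹ * eLine G v v' n), e3, eLine_inv_mul, rlen_line_mul hn hv x' hx1 hx2,
    natAbs_ite, rlen_inv]
  omega

lemma conv_RW (hn : ¬ G.Adj v v') (hv : v ≠ v') (n : ℤ) (w : RW G)
    (h : rlen G w + rlen G (w⁻¹ * eLine G v v' n) = rlen G (eLine G v v' n)) :
    ∃ k, w = eLine G v v' k := by
  obtain ⟨w', ew, hw1, hw2⟩ := gam_spec v v' w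
  have h1 := gate_RW hn hv w n
  have h2 : rlen G w = (gam v v' w).natAbs + rlen G w' := by
    conv_lhs => rw [ew]
    exact rlen_line_mul hn hv w' hw1 hw2 _
  have e2 : w⁻¹ * eLine G v v' (gam v v' w) = w'⁻¹ := by
    conv_lhs => rw [ew]
    have : eLine G v v' (gam v v' (eLine G v v' (gam v v' w) * w')) =
        eLine G v v' (gam v v' w) := by rw [← ew]
    rw [this]
    group
  rw [e2, rlen_inv] at h1
  rw [h1, h2, rlen_eLine G hn hv] at h
  have h3 : rlen G w' = 0 := by omega
  rw [rlen_eq_zero] at h3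
  refine ⟨gam v v' w, ?_⟩
  rw [h3, mul_one] at ew
  exact ew

/-- The page of a right-angled Coxeter group. -/
noncomputable def mkPage (v v' : S) (hn : ¬ G.Adj v v') (hv : v ≠ v')
    (hcn : ∀ s, ¬ (G.Adj s v ∧ G.Adj s v'))
    (hsq : ∀ x y a b, x ≠ y → ¬ G.Adj x y → G.Adj x a → G.Adj x b → G.Adj y a →
      G.Adj y b → a ≠ b → G.Adj a b) (κ : ℕ)
    (hclq : ∀ σ : Finset S, (∀ a ∈ σ, ∀ b ∈ σ, a ≠ b → G.Adj a b) → σ.card ≤ κ) :
    Page (RW G) S where
  gen := gen G
  gen_mul_self := gen_mul_self G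
  len := rlen G
  len_one := rlen_one G
  eq_one_of_len := fun g hg => (rlen_eq_zero G).mp hg
  len_inv := rlen_inv G
  len_mul_le := rlen_mul_le G
  len_gen := rlen_gen G
  exists_desc := fun g hg => by
    obtain ⟨s, hs⟩ := exists_rdesc G hg
    refine ⟨s, ?_⟩
    rcases rlen_mul_gen G g s with h | h <;> omega
  e := eLine G v v'
  e_zero := eLine_zero G v v'
  e_succ := fun n => ⟨_, eLine_succ G v v' n⟩
  e_mul := fun m n => by
    by_cases h : m % 2 = 0
    · exact ⟨_, eLine_mul_of_even G v v' h n⟩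
    · exact ⟨_, eLine_mul_of_odd G v v' (by omega) n⟩
  e_inv := fun m => ⟨_, eLine_inv G v v' m⟩
  e_len := fun m n => by
    rw [eLine_inv_mul, rlen_eLine G hn hv, natAbs_ite]
  γ := gam v v'
  gate := gate_RW hn hv
  κ := κ
  thin := thin_RW hsq κ hclq
  far := far_RW hn hv hcn
  conv := conv_RW hn hv

/-- the gate of an element with a descent outside the line is near `1` -/
theorem gam_le_one (hn : ¬ G.Adj v v') (hv : v ≠ v')
    (hcn : ∀ s, ¬ (G.Adj s v ∧ G.Adj s v')) (g : RW G) (s : S) (hs1 : s ≠ v) (hs2 : s ≠ v')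
    (hs : rlen G (gen G s * g) < rlen G g) : (gam v v' g).natAbs ≤ 1 := by
  by_contra hc
  obtain ⟨g', eg, h1, h2⟩ := gam_spec v v' g
  refine desc_far hn hv hcn h1 h2 (j := gam v v' g) (by omega) hs1 hs2 ?_
  rw [← eg]
  exact hs

theorem gam_eq_zero (hn : ¬ G.Adj v v') (hv : v ≠ v') (g : RW G)
    (h1 : ¬ rlen G (gen G v * g) < rlen G g) (h2 : ¬ rlen G (gen G v' * g) < rlen G g) :
    gam v v' g = 0 := by
  obtain ⟨g', eg, h3, h4⟩ := gam_spec v v' g
  by_contra hc
  have L := rlen_line_mul hn hv g' h3 h4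
  rcases Int.natAbs_eq (gam v v' g) with h | h
  · refine h1 ?_
    have a1 : rlen G (gen G v * (eLine G v v' (gam v v' g) * g')) <
        rlen G (eLine G v v' (gam v v' g) * g') := by
      rw [← mul_assoc, gen_mul_eLine, L, L]; omega
    rwa [← eg] at a1
  · refine h2 ?_
    have a1 : rlen G (gen G v' * (eLine G v v' (gam v v' g) * g')) <
        rlen G (eLine G v v' (gam v v' g) * g') := by
      rw [← mul_assoc, gen'_mul_eLine, L, L]; omega
    rwa [← eg] at a1

end

end Pool.Agent.helper82.LC
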