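import Mathlib
import Pool.Agent.helper82.LC.PageRA
import Pool.Agent.helper83.LC.Rich

/-!
# The page of `L14` with its subgroup `Q`
-/

set_option autoImplicit false

namespace Pool.Agent.helper82.LC

open Pool.Agent.helper99.LC

section

variable {S : Type} [DecidableEq S] {G : SimpleGraph S} [DecidableRel G.Adj] {v v' : S}

/-- uniqueness of the gate -/
lemma gam_mul (hn : ¬ G.Adj v v') (hv : v ≠ v') (x : RW G)
    (h1 : ¬ rlen G (gen G v * x) < rlen G x) (h2 : ¬ rlen G (gen G v' * x) < rlen G x) (j : ℤ) :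
    gam v v' (eLine G v v' j * x) = j := by
  set y := eLine G v v' j * x with hy
  have g1 := gate_RW hn hv y j
  have e2 : ∀ n, rlen G (y⁻¹ * eLine G v v' n) = (n - j).natAbs + rlen G x := by
    intro n
    have e3 : (y⁻¹ * eLine G v v' n)⁻¹ = ((eLine G v v' n)⁻¹ * eLine G v v' j) * x := by
      rw [hy]; group
    rw [← rlen_inv, e3, eLine_inv_mul, rlen_line_mul hn hv x h1 h2, natAbs_ite]
  rw [e2, e2] at g1
  omega

theorem gam_line_mul (hn : ¬ G.Adj v v') (hv : v ≠ v') (n : ℤ) (g : RW G) :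
    gam v v' (eLine G v v' n * g) = n + gam v v' g ∨
      gam v v' (eLine G v v' n * g) = n - gam v v' g := by
  obtain ⟨g', eg, h1, h2⟩ := gam_spec v v' g
  set k := gam v v' g with hk
  have e1 : eLine G v v' n * g = (eLine G v v' n * eLine G v v' k) * g' := by
    rw [eg, mul_assoc]
  by_cases h : n % 2 = 0
  · left
    rw [e1, eLine_mul_of_even G v v' h, gam_mul hn hv g' h1 h2]
  · right
    rw [e1, eLine_mul_of_odd G v v' (by omega), gam_mul hn hv g' h1 h2]

end

lemma L14_nadj : ¬ L14.Adj 0 3 := by decide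

lemma L14_cn : ∀ s, ¬ (L14.Adj s 0 ∧ L14.Adj s 3) := by decide

lemma L14_sq' : ∀ x y, x ≠ y → ¬ L14.Adj x y → ∀ a, L14.Adj x a → L14.Adj y a → ∀ b, L14.Adj x b →
    L14.Adj y b → a ≠ b → L14.Adj a b := by decide +kernel

lemma L14_sq : ∀ x y a b, x ≠ y → ¬ L14.Adj x y → L14.Adj x a → L14.Adj x b → L14.Adj y a →
    L14.Adj y b → a ≠ b → L14.Adj a b :=
  fun x y a b h1 h2 h3 h4 h5 h6 h7 => L14_sq' x y h1 h2 a h3 h5 b h4 h6 h7

lemma L14_K4 : ∀ a b, L14.Adj a b → ∀ c, L14.Adj a c → L14.Adj b c → ∀ d, L14.Adj a d →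
    L14.Adj b d → ¬ L14.Adj c d := by decide +kernel

lemma L14_clq (σ : Finset (Fin 14)) (h : ∀ a ∈ σ, ∀ b ∈ σ, a ≠ b → L14.Adj a b) : σ.card ≤ 3 := by
  by_contra hc
  obtain ⟨τ, hτ, hcard⟩ := Finset.exists_subset_card_eq (s := σ) (n := 4) (by omega)
  obtain ⟨a, τ', haτ, rfl, hc'⟩ := Finset.card_eq_succ.mp hcard
  obtain ⟨b, c, d, hbc, hbd, hcd, rfl⟩ := Finset.card_eq_three.mp hc'
  have ha : a ∈ insert a ({b, c, d} : Finset (Fin 14)) := by simp
  have hb : b ∈ insert a ({b, c, d} : Finset (Fin 14)) := by simp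
  have hcm : c ∈ insert a ({b, c, d} : Finset (Fin 14)) := by simp
  have hd : d ∈ insert a ({b, c, d} : Finset (Fin 14)) := by simp
  simp only [Finset.mem_insert, Finset.mem_singleton, not_or] at haτ
  obtain ⟨hab, hac, had⟩ := haτ
  exact L14_K4 a b (h a (hτ ha) b (hτ hb) hab) c (h a (hτ ha) c (hτ hcm) hac)
    (h b (hτ hb) c (hτ hcm) hbc) d (h a (hτ ha) d (hτ hd) had) (h b (hτ hb) d (hτ hd) hbd)
    (h c (hτ hcm) d (hτ hd) hcd)

/-- The page of `L14`. -/
noncomputable def page14 : Page (RW L14) (Fin 14) :=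
  mkPage 0 3 L14_nadj (by decide) L14_cn L14_sq 3 L14_clq

theorem gfacts14 : Pool.Agent.helper83.LC.GFacts page14 where
  gen_eq := rfl
  len_eq := rfl
  e_eq := rfl
  gam1 := fun g s h0 h3 h => gam_le_one L14_nadj (by decide) L14_cn g s h0 h3 h
  gam0 := fun g h1 h2 => gam_eq_zero L14_nadj (by decide) g h1 h2
  gamE := fun n g => gam_line_mul L14_nadj (by decide) n g

/-- The page with its subgroup `Q` exists. -/
theorem exists_pageQ :
    ∃ (W : Type) (_ : Group W) (S : Type) (_ : Fintype S), Nonempty (PageQ W S) :=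
  Pool.Agent.helper83.LC.exists_pageQ_of (rFacts L14) page14 gfacts14

end Pool.Agent.helper82.LC
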